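import Mathlib

/-! Algebraic identities for quadratic forms (problem MP_8b378c_ag). -/

open Matrix

namespace Pool.Agent.H12.TC

theorem gram_det {K : Type*} [Field K] (f : Fin 4 → K) (x : Matrix (Fin 4) (Fin 4) K)
    (g : Fin 4 → Fin 4 → K) (hg : ∀ m n, g m n = ∑ l, f l * x m l * x n l) :
    (Matrix.of g).det = (∏ l, f l) * x.det ^ 2 := by
  have h : Matrix.of g = x * Matrix.diagonal f * xᵀ := by
    ext m n
    rw [Matrix.of_apply, hg, Matrix.mul_apply]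
    refine Finset.sum_congr rfl fun l _ => ?_
    rw [Matrix.mul_diagonal, Matrix.transpose_apply]
    ring
  rw [h, Matrix.det_mul, Matrix.det_mul, Matrix.det_diagonal, Matrix.det_transpose]
  ring

theorem schur {K : Type*} [Field K] (g : Fin 4 → Fin 4 → K)
    (hs : ∀ m n, g m n = g n m) (r d a1 b1 a2 b2 : K) (hr : r ≠ 0) (hd : d ≠ 0)
    (hD : a1 * b2 - a2 * b1 ≠ 0) (h00 : r * g 0 0 = a1 ^ 2 - d * b1 ^ 2)
    (h01 : r * g 0 1 = a1 * a2 - d * (b1 * b2)) (h11 : r * g 1 1 = a2 ^ 2 - d * b2 ^ 2)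
    (TA TB : Fin 4 → K) (hTA : ∀ m, TA m = r * (g m 0 * b2 - g m 1 * b1) / (a1 * b2 - a2 * b1))
    (hTB : ∀ m, TB m = r * (g m 0 * a2 - g m 1 * a1) / (d * (a1 * b2 - a2 * b1)))
    (psi : Fin 4 → Fin 4 → K)
    (hpsi : ∀ m n, psi m n = r * g m n - (TA m * TA n - d * (TB m * TB n))) :
    d * (a1 * b2 - a2 * b1) ^ 2 * (psi 2 3 ^ 2 - psi 2 2 * psi 3 3) =
      r ^ 4 * (Matrix.of g).det := by
  have e00 : g 0 0 = (a1 ^ 2 - d * b1 ^ 2) / r := by rw [← h00]; field_simp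
  have e01 : g 0 1 = (a1 * a2 - d * (b1 * b2)) / r := by rw [← h01]; field_simp
  have e11 : g 1 1 = (a2 ^ 2 - d * b2 ^ 2) / r := by rw [← h11]; field_simp
  have hdet : (Matrix.of g).det = g 0 0 * (g 1 1 * (g 2 2 * g 3 3 - g 2 3 * g 2 3)
      - g 1 2 * (g 1 2 * g 3 3 - g 2 3 * g 1 3) + g 1 3 * (g 1 2 * g 2 3 - g 2 2 * g 1 3))
      - g 0 1 * (g 0 1 * (g 2 2 * g 3 3 - g 2 3 * g 2 3)
      - g 1 2 * (g 0 2 * g 3 3 - g 2 3 * g 0 3) + g 1 3 * (g 0 2 * g 2 3 - g 2 2 * g 0 3))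
      + g 0 2 * (g 0 1 * (g 1 2 * g 3 3 - g 2 3 * g 1 3)
      - g 1 1 * (g 0 2 * g 3 3 - g 2 3 * g 0 3) + g 1 3 * (g 0 2 * g 1 3 - g 1 2 * g 0 3))
      - g 0 3 * (g 0 1 * (g 1 2 * g 2 3 - g 2 2 * g 1 3)
      - g 1 1 * (g 0 2 * g 2 3 - g 2 2 * g 0 3) + g 1 2 * (g 0 2 * g 1 3 - g 1 2 * g 0 3)) := by
    have s10 := hs 1 0
    have s20 := hs 2 0
    have s30 := hs 3 0
    have s21 := hs 2 1
    have s31 := hs 3 1
    have s32 := hs 3 2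
    rw [Matrix.det_succ_row_zero]
    simp only [Fin.sum_univ_succ, Matrix.det_fin_three, Matrix.submatrix_apply]
    simp [Fin.succAbove]
    simp only [s10, s20, s30, s21, s31, s32]
    ring
  rw [hdet]
  simp only [hpsi, hTA, hTB]
  rw [hs 2 0, hs 3 0, hs 2 1, hs 3 1, e00, e01, e11]
  field_simp
  ring

end Pool.Agent.H12.TC
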