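import Pool.Agent.H12.TC.Gen

/-! The three linear equations have rank three (problem MP_8b378c_ag). -/

open Polynomial Set

namespace Pool.Agent.H12.TC

/-- a point of a conic on a line is algebraic -/
theorem conic_line {k Om : Type*} [Field k] [Field Om] [IsAlgClosed Om] [Algebra k Om]
    (h2 : (2 : Om) ≠ 0) {S : Set Om} {a b dd c κ s t : Om} (hd : dd ∈ clo k S) (hd0 : dd ≠ 0)
    (hc : c ∈ clo k S) (hc0 : c ≠ 0) (hκ : κ ∈ clo k S) (hs : s ∈ clo k S) (ht : t ∈ clo k S)
    (hst : ¬ (s = 0 ∧ t = 0)) (h1 : a ^ 2 - dd * b ^ 2 = c) (h3 : a * s - dd * b * t = κ) :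
    b ∈ clo k S := by
  obtain ⟨β, hβ⟩ := IsAlgClosed.exists_pow_nat_eq dd (n := 2) two_pos
  have hβm : β ∈ clo k S := clo_sq (by rw [hβ]; exact hd)
  have hβ0 : β ≠ 0 := by
    intro h0
    rw [h0] at hβ
    apply hd0
    rw [← hβ]; ring
  have h2m : (2 : Om) ∈ clo k S := by
    have := (clo k S).algebraMap_mem (2 : k)
    rwa [map_ofNat] at this
  have hPQ : (a + β * b) * (a - β * b) = c := by
    rw [← h1, ← hβ]; ring
  have hlin : (a + β * b) * (s - β * t) + (a - β * b) * (s + β * t) = 2 * κ := by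
    rw [← h3, ← hβ]; ring
  have hP0 : a + β * b ≠ 0 := fun h0 => hc0 (by rw [← hPQ, h0, zero_mul])
  have hQ0 : a - β * b ≠ 0 := fun h0 => hc0 (by rw [← hPQ, h0, mul_zero])
  have m1 : s - β * t ∈ clo k S := sub_mem hs (mul_mem hβm ht)
  have m2 : s + β * t ∈ clo k S := add_mem hs (mul_mem hβm ht)
  have hfin : a + β * b ∈ clo k S ∧ a - β * b ∈ clo k S := by
    by_cases hz : s - β * t = 0
    · have hz2 : s + β * t ≠ 0 := by
        intro h0
        apply hst
        constructor
        · have : 2 * s = 0 := by linear_combination hz + h0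
          exact (mul_eq_zero.1 this).resolve_left h2
        · have : 2 * β * t = 0 := by linear_combination h0 - hz
          exact (mul_eq_zero.1 this).resolve_left (mul_ne_zero h2 hβ0)
      rw [hz, mul_zero, zero_add] at hlin
      have hQ : a - β * b ∈ clo k S := by
        have e1 : a - β * b = 2 * κ / (s + β * t) := by rw [eq_div_iff hz2, hlin]
        rw [e1]; exact div_mem (mul_mem h2m hκ) m2
      refine ⟨?_, hQ⟩
      have e1 : a + β * b = c / (a - β * b) := by rw [eq_div_iff hQ0, hPQ]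
      rw [e1]; exact div_mem hc hQ
    · have hP : a + β * b ∈ clo k S := by
        refine clo_quad (α := s - β * t) (β := (s + β * t) * c) (γ := 2 * κ) h2 m1
          (mul_mem m2 hc) (mul_mem h2m hκ) hz ?_
        rw [← hlin, ← hPQ]; ring
      refine ⟨hP, ?_⟩
      have e1 : a - β * b = c / (a + β * b) := by rw [eq_div_iff hP0, mul_comm, hPQ]
      rw [e1]; exact div_mem hc hP
  have e1 : b = ((a + β * b) - (a - β * b)) / (2 * β) := by
    field_simp; ring
  rw [e1]
  exact div_mem (sub_mem hfin.1 hfin.2) (mul_mem h2m hβm)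

theorem ev_mem_clo {k Om : Type*} [Field k] [Field Om] [Algebra k Om] {S : Set Om}
    (T : Fin 4 → k[X]) {x : Om} (hx : x ∈ clo k S) {w : Fin 4 → Om} (hw : ∀ j, w j ∈ clo k S) :
    ev T x w ∈ clo k S := by
  unfold ev
  exact sum_mem fun j _ => mul_mem (hw j) (aeval_mem _ hx _)

/-- three linear equations in four unknowns -/
theorem exists_kernel3 {K : Type*} [Field K] (f : Fin 3 → Fin 4 → K) :
    ∃ w : Fin 4 → K, w ≠ 0 ∧ ∀ i, ∑ j, f i j * w j = 0 := by
  obtain ⟨w, hw, h⟩ := exists_kernel (K := K) ![f 0, f 1, f 2, 0] (fun j => rfl)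
  refine ⟨w, hw, fun i => ?_⟩
  fin_cases i
  · exact h 0
  · exact h 1
  · exact h 2

section

variable {k F Om : Type*} [Field k] [Field F] [Field Om] [IsAlgClosed Om] [Algebra k F]
  [Algebra F Om] [Algebra k Om] [IsScalarTower k F Om] {p q ρ d s : k[X]} {e : Fin 3 → Om}
  {y : Fin 2 → Om}

/-- the generic zero together with the linear forms of the isotropic subspaces -/
structure GZC (p q ρ d s : k[X]) (e : Fin 3 → Om) (y : Fin 2 → Om) (u v : F) (A B : F[X])
    (xi : Fin 4 → F) (TA TB XX YY : Fin 4 → k[X]) : Prop where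
  gz : GZ p q ρ d s e y u v A B xi
  id : ∀ i (w : Fin 4 → Om), Polynomial.aeval (e i) ρ * Phi ρ d y (e i) w w =
      ev TA (e i) w ^ 2 - Polynomial.aeval (e i) d * ev TB (e i) w ^ 2 +
        ev XX (e i) w * ev YY (e i) w

/-- the first parameter -/
noncomputable def zA (x : Om) (A : F[X]) (xi : Fin 4 → F) (TA XX : Fin 4 → k[X]) : Om :=
  (Polynomial.aeval x A - ev TA x (up xi)) / ev XX x (up xi)

/-- the linear forms in the unknown `xi` -/
noncomputable def ll (d : k[X]) (x : Om) (A B : F[X]) (xi : Fin 4 → F)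
    (TA TB XX YY : Fin 4 → k[X]) (w : Fin 4 → Om) : Om :=
  2 * (zA x A xi TA XX * ev TA x w - Polynomial.aeval x d * zA x B xi TB XX * ev TB x w) +
    (zA x A xi TA XX ^ 2 - Polynomial.aeval x d * zA x B xi TB XX ^ 2) * ev XX x w - ev YY x w

omit [IsAlgClosed Om] in
theorem ll_lin (x : Om) (A B : F[X]) (xi : Fin 4 → F) (TA TB XX YY : Fin 4 → k[X]) :
    Lin (ll d x A B xi TA TB XX YY) := by
  refine ((((((ev_lin TA x).smul (zA x A xi TA XX)).sub ((ev_lin TB x).smul
    (Polynomial.aeval x d * zA x B xi TB XX))).smul 2).add ((ev_lin XX x).smul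
    (zA x A xi TA XX ^ 2 - Polynomial.aeval x d * zA x B xi TB XX ^ 2))).sub
    (ev_lin YY x)).of_eq fun v => ?_
  rfl

namespace GZC

variable {u v : F} {A B : F[X]} {xi : Fin 4 → F} {TA TB XX YY : Fin 4 → k[X]}

omit [IsAlgClosed Om] in
/-- the four forms have no common zero -/
theorem nd (h : GZC p q ρ d s e y u v A B xi TA TB XX YY) (i : Fin 3) {w : Fin 4 → Om}
    (h1 : ev TA (e i) w = 0) (h2 : ev TB (e i) w = 0) (h3 : ev XX (e i) w = 0)
    (h4 : ev YY (e i) w = 0) : w = 0 := by
  refine h.gz.base.nondeg i fun w' => ?_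
  have a1 := h.id i (w + w')
  have a2 := h.id i w
  have a3 := h.id i w'
  rw [(ev_lin TA (e i)).map_add, (ev_lin TB (e i)).map_add, (ev_lin XX (e i)).map_add,
    (ev_lin YY (e i)).map_add, h1, h2, h3, h4] at a1
  rw [h1, h2, h3, h4] at a2
  have hl : Phi ρ d y (e i) (w + w') (w + w') = Phi ρ d y (e i) w w +
      2 * Phi ρ d y (e i) w w' + Phi ρ d y (e i) w' w' := by
    unfold Phi phi
    simp only [Pi.add_apply]
    ring
  rw [hl] at a1
  have h5 : (2 * Polynomial.aeval (e i) ρ) * Phi ρ d y (e i) w w' = 0 := by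
    linear_combination a1 - a2 - a3
  exact (mul_eq_zero.1 h5).resolve_left (mul_ne_zero h.gz.base.h2 (h.gz.base.hρe i))

omit [IsAlgClosed Om] in
theorem nz2 (h : GZC p q ρ d s e y u v A B xi TA TB XX YY) (i : Fin 3) :
    ev XX (e i) (up xi) ≠ 0 := by
  classical
  intro h0
  -- some coefficient is not zero
  have hex : ∃ j, Polynomial.aeval (e i) (XX j) ≠ 0 := by
    by_contra hcon
    push Not at hcon
    obtain ⟨w, hw0, hw⟩ := exists_kernel3 (K := Om) (fun n j => if n = 0 then
      Polynomial.aeval (e i) (TA j) else if n = 1 then Polynomial.aeval (e i) (TB j)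
      else Polynomial.aeval (e i) (YY j))
    apply hw0
    refine h.nd i ?_ ?_ ?_ ?_
    · have := hw 0
      simp only [if_true] at this
      rw [← this]
      exact Finset.sum_congr rfl fun j _ => mul_comm _ _
    · have := hw 1
      simp only [one_ne_zero, if_false, if_true] at this
      rw [← this]
      exact Finset.sum_congr rfl fun j _ => mul_comm _ _
    · unfold ev
      exact Finset.sum_eq_zero fun j _ => by rw [hcon j, mul_zero]
    · have := hw 2
      have h20 : (2 : Fin 3) ≠ 0 := by decide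
      have h21 : (2 : Fin 3) ≠ 1 := by decide
      simp only [h20, h21, if_false] at this
      rw [← this]
      exact Finset.sum_congr rfl fun j _ => mul_comm _ _
  obtain ⟨j0, hj0⟩ := hex
  let S : Finset Om := (Finset.univ.erase j0).image (fun j => (up xi j : Om)) ∪
    Finset.univ.image (fun i => Polynomial.aeval (e i) B)
  have hcard : S.card ≤ 6 := by
    refine (Finset.card_union_le _ _).trans ?_
    have a1 : ((Finset.univ.erase j0).image (fun j => (up xi j : Om))).card ≤ 3 := by
      refine Finset.card_image_le.trans ?_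
      rw [Finset.card_erase_of_mem (Finset.mem_univ j0)]
      simp
    have a2 : (Finset.univ.image (fun i => Polynomial.aeval (e i) B)).card ≤ 3 := by
      refine Finset.card_image_le.trans ?_
      simp
    omega
  have hxi : ∀ j, j ≠ j0 → (up xi j : Om) ∈ clo k (S : Set Om) := by
    intro j hj
    refine subset_clo ?_
    rw [Finset.mem_coe, Finset.mem_union]
    exact Or.inl (Finset.mem_image.2 ⟨j, Finset.mem_erase.2 ⟨hj, Finset.mem_univ j⟩, rfl⟩)
  have hb : ∀ i, Polynomial.aeval (e i) B ∈ clo k (S : Set Om) := by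
    intro i
    refine subset_clo ?_
    rw [Finset.mem_coe, Finset.mem_union]
    exact Or.inr (Finset.mem_image.2 ⟨i, Finset.mem_univ i, rfl⟩)
  have he := alg_mem_clo (S := (S : Set Om)) (root_alg h.gz.base.hp i)
  have hxj : (up xi j0 : Om) ∈ clo k (S : Set Om) := by
    unfold ev at h0
    rw [← Finset.add_sum_erase Finset.univ _ (Finset.mem_univ j0)] at h0
    have h1 : (up xi j0 : Om) = -(∑ j ∈ Finset.univ.erase j0, up xi j *
        Polynomial.aeval (e i) (XX j)) / Polynomial.aeval (e i) (XX j0) := by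
      rw [eq_div_iff hj0]
      linear_combination h0
    rw [h1]
    refine div_mem (neg_mem (sum_mem fun j hj => mul_mem (hxi j (Finset.ne_of_mem_erase hj))
      (aeval_mem _ he _))) (aeval_mem _ he _)
  refine h.gz.td S hcard (fun j => ?_) hb
  by_cases hj : j = j0
  · rw [hj]; exact hxj
  · exact hxi j hj

omit [IsAlgClosed Om] in
theorem l0 (h : GZC p q ρ d s e y u v A B xi TA TB XX YY) (i : Fin 3) :
    ll d (e i) A B xi TA TB XX YY (up xi) = 0 := by
  have hX := h.nz2 i
  have h1 := h.id i (up xi)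
  rw [h.gz.zero i] at h1
  unfold ll zA
  field_simp
  linear_combination h1

/-- one step: the last parameter is not algebraic over the others -/
theorem step (h : GZC p q ρ d s e y u v A B xi TA TB XX YY) {m : Fin 4}
    (hm : (up xi m : Om) ≠ 0) (i : Fin 3)
    (hall : ∀ w : Fin 4 → Om, (∀ n, n ≠ i → ll d (e n) A B xi TA TB XX YY w = 0) → w m = 0 →
      ll d (e i) A B xi TA TB XX YY w = 0) : False := by
  classical
  let S : Finset Om := Finset.univ.image (fun j => (up xi j : Om)) ∪
    (Finset.univ.erase i).image (fun i => Polynomial.aeval (e i) B)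
  have hcard : S.card ≤ 6 := by
    refine (Finset.card_union_le _ _).trans ?_
    have a1 : (Finset.univ.image (fun j => (up xi j : Om))).card ≤ 4 := by
      refine Finset.card_image_le.trans ?_
      simp
    have a2 : ((Finset.univ.erase i).image (fun i => Polynomial.aeval (e i) B)).card ≤ 2 := by
      refine Finset.card_image_le.trans ?_
      rw [Finset.card_erase_of_mem (Finset.mem_univ i)]
      simp
    omega
  set K := clo k (S : Set Om) with hK
  have hxi : ∀ j, (up xi j : Om) ∈ K := by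
    intro j
    refine subset_clo ?_
    rw [Finset.mem_coe, Finset.mem_union]
    exact Or.inl (Finset.mem_image.2 ⟨j, Finset.mem_univ j, rfl⟩)
  have hb : ∀ n, n ≠ i → Polynomial.aeval (e n) B ∈ K := by
    intro n hn
    refine subset_clo ?_
    rw [Finset.mem_coe, Finset.mem_union]
    exact Or.inr (Finset.mem_image.2 ⟨n, Finset.mem_erase.2 ⟨hn, Finset.mem_univ n⟩, rfl⟩)
  have he : ∀ i, e i ∈ K := fun i => alg_mem_clo (root_alg h.gz.base.hp i)
  have h2m : (2 : Om) ∈ K := by
    have := K.algebraMap_mem (2 : k)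
    rwa [map_ofNat] at this
  have hd : ∀ n, Polynomial.aeval (e n) d ∈ K := fun n => aeval_mem K (he n) d
  have hPhi : ∀ n, Polynomial.aeval (e n) ρ * Phi ρ d y (e n) (up xi) (up xi) ∈ K := fun n =>
    mul_mem (aeval_mem K (he n) ρ) (Phi_mem_clo h.gz.base _ n hxi hxi)
  have ha : ∀ n, n ≠ i → Polynomial.aeval (e n) A ∈ K := by
    intro n hn
    apply clo_sq
    have h1 := h.gz.zero n
    have h2 : Polynomial.aeval (e n) A ^ 2 = Polynomial.aeval (e n) ρ *
        Phi ρ d y (e n) (up xi) (up xi) +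
        Polynomial.aeval (e n) d * Polynomial.aeval (e n) B ^ 2 := by linear_combination -h1
    rw [h2]
    exact add_mem (hPhi n) (mul_mem (hd n) (pow_mem (hb n hn) 2))
  have hev : ∀ (T : Fin 4 → k[X]) n (w : Fin 4 → Om), (∀ j, w j ∈ K) → ev T (e n) w ∈ K :=
    fun T n w hw => ev_mem_clo T (he n) hw
  have hsing : ∀ j l : Fin 4, (Pi.single j 1 : Fin 4 → Om) l ∈ K := by
    intro j l
    by_cases hl : l = j
    · rw [hl, Pi.single_eq_same]; exact one_mem K
    · rw [Pi.single_eq_of_ne hl]; exact zero_mem K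
  have hll : ∀ n, n ≠ i → ∀ j, ll d (e n) A B xi TA TB XX YY (Pi.single j 1) ∈ K := by
    intro n hn j
    have mA : zA (e n) A xi TA XX ∈ K :=
      div_mem (sub_mem (ha n hn) (hev TA n _ hxi)) (hev XX n _ hxi)
    have mB : zA (e n) B xi TB XX ∈ K :=
      div_mem (sub_mem (hb n hn) (hev TB n _ hxi)) (hev XX n _ hxi)
    unfold ll
    exact sub_mem (add_mem (mul_mem h2m (sub_mem (mul_mem mA (hev TA n _ (hsing j)))
      (mul_mem (mul_mem (hd n) mB) (hev TB n _ (hsing j))))) (mul_mem (sub_mem (pow_mem mA 2)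
      (mul_mem (hd n) (pow_mem mB 2))) (hev XX n _ (hsing j)))) (hev YY n _ (hsing j))
  -- the vector w'
  let g : Fin 3 → Fin 4 → Om := fun n j => if n = i then (Pi.single j 1 : Fin 4 → Om) m else
    ll d (e n) A B xi TA TB XX YY (Pi.single j 1)
  have hg : ∀ n j, g n j ∈ K := by
    intro n j
    simp only [g]
    split_ifs with hn
    · exact hsing j m
    · exact hll n hn j
  obtain ⟨w, hw0, hw⟩ := exists_kernel3 (K := K) (fun n j => ⟨g n j, hg n j⟩)
  let w' : Fin 4 → Om := fun j => (w j : Om)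
  have hw'K : ∀ j, w' j ∈ K := fun j => (w j).2
  have hw'0 : w' ≠ 0 := by
    intro h0
    apply hw0
    ext j
    exact congrFun h0 j
  have hsum : ∀ n, ∑ j, g n j * w' j = 0 := by
    intro n
    have h1 := congrArg (algebraMap K Om) (hw n)
    rw [map_sum, map_zero] at h1
    rw [← h1]
    rfl
  have hwn : ∀ n, n ≠ i → ll d (e n) A B xi TA TB XX YY w' = 0 := by
    intro n hn
    rw [ll_lin (e n) A B xi TA TB XX YY w', ← hsum n]
    refine Finset.sum_congr rfl fun j _ => ?_
    simp only [g, if_neg hn]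
    ring
  have hwm : w' m = 0 := by
    have h1 := hsum i
    simp only [g, if_true] at h1
    rw [Finset.sum_eq_single m] at h1
    · simpa using h1
    · intro j _ hj
      rw [Pi.single_eq_of_ne hj.symm]; ring
    · intro hh; exact absurd (Finset.mem_univ m) hh
  have hwi := hall w' hwn hwm
  -- the vector w''
  have hX := h.nz2 i
  let w2 : Fin 4 → Om := ev XX (e i) (up xi) • w' + (-ev XX (e i) w') • up xi
  have hw2K : ∀ j, w2 j ∈ K := by
    intro j
    simp only [w2, Pi.add_apply, Pi.smul_apply, smul_eq_mul]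
    exact add_mem (mul_mem (hev XX i _ hxi) (hw'K j)) (mul_mem (neg_mem (hev XX i _ hw'K))
      (hxi j))
  have hw20 : w2 ≠ 0 := by
    intro h0
    have h1 := congrFun h0 m
    simp only [w2, Pi.add_apply, Pi.smul_apply, smul_eq_mul, hwm, mul_zero, zero_add,
      Pi.zero_apply] at h1
    have h3 : ev XX (e i) w' = 0 := by
      have := (mul_eq_zero.1 h1).resolve_right hm
      exact neg_eq_zero.1 this
    apply hw'0
    have h4 : ev XX (e i) (up xi) • w' = 0 := by
      have h5 : w2 = ev XX (e i) (up xi) • w' := by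
        simp only [w2, h3, neg_zero, zero_smul, add_zero]
      rw [← h5, h0]
    exact (smul_eq_zero.1 h4).resolve_left hX
  have hX2 : ev XX (e i) w2 = 0 := by
    simp only [w2]
    rw [(ev_lin XX (e i)).map_add, (ev_lin XX (e i)).map_smul, (ev_lin XX (e i)).map_smul]
    ring
  have hl2 : ll d (e i) A B xi TA TB XX YY w2 = 0 := by
    have hL := ll_lin (d := d) (e i) A B xi TA TB XX YY
    simp only [w2]
    rw [hL.map_add, hL.map_smul, hL.map_smul, hwi, h.l0 i]
    ring
  have hst : ¬ (ev TA (e i) w2 = 0 ∧ ev TB (e i) w2 = 0) := by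
    rintro ⟨t1, t2⟩
    apply hw20
    refine h.nd i t1 t2 hX2 ?_
    unfold ll at hl2
    rw [t1, t2, hX2] at hl2
    linear_combination -hl2
  have hcon : Polynomial.aeval (e i) B ∈ K := by
    refine conic_line h.gz.base.h2 (a := Polynomial.aeval (e i) A) (s := ev TA (e i) w2)
      (t := ev TB (e i) w2) (dd := Polynomial.aeval (e i) d)
      (c := Polynomial.aeval (e i) ρ * Phi ρ d y (e i) (up xi) (up xi))
      (κ := ev XX (e i) (up xi) * ev YY (e i) w2 / 2 + ev TA (e i) (up xi) * ev TA (e i) w2 -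
        Polynomial.aeval (e i) d * ev TB (e i) (up xi) * ev TB (e i) w2)
      (hd i) (h.gz.base.hde i) (hPhi i)
      (mul_ne_zero (h.gz.base.hρe i) (h.gz.nz1 i))
      (sub_mem (add_mem (div_mem (mul_mem (hev XX i _ hxi) (hev YY i _ hw2K)) h2m)
        (mul_mem (hev TA i _ hxi) (hev TA i _ hw2K)))
        (mul_mem (mul_mem (hd i) (hev TB i _ hxi)) (hev TB i _ hw2K)))
      (hev TA i _ hw2K) (hev TB i _ hw2K) hst (h.gz.zero i).symm ?_
    have h22 := h.gz.base.h2
    unfold ll zA at hl2
    rw [hX2] at hl2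
    field_simp at hl2
    have hl3 : 2 * ((Polynomial.aeval (e i) A - ev TA (e i) (up xi)) * ev TA (e i) w2 -
        Polynomial.aeval (e i) d * (Polynomial.aeval (e i) B - ev TB (e i) (up xi)) *
          ev TB (e i) w2) - ev XX (e i) (up xi) * ev YY (e i) w2 = 0 := by
      refine (mul_eq_zero.1 (?_ : ev XX (e i) (up xi) * _ = 0)).resolve_left hX
      linear_combination hl2
    field_simp
    linear_combination hl3
  refine h.gz.td S hcard hxi fun n => ?_
  by_cases hn : n = i
  · rw [hn]; exact hcon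
  · exact hb n hn

/-- the kernel of the three linear forms is the line of `xi` -/
theorem ker (h : GZC p q ρ d s e y u v A B xi TA TB XX YY) {m : Fin 4}
    (hm : (up xi m : Om) ≠ 0) {w : Fin 4 → Om} (hwm : w m = 0)
    (hw : ∀ i, ll d (e i) A B xi TA TB XX YY w = 0) : w = 0 := by
  by_contra hw0
  let l : Fin 3 → (Fin 4 → Om) → Om := fun i => ll d (e i) A B xi TA TB XX YY
  have lsum : ∀ i v, l i v = ∑ j, v j * l i (Pi.single j 1) :=
    fun i v => ll_lin (e i) A B xi TA TB XX YY v
  let R : Matrix (Fin 4) (Fin 4) Om := Matrix.of ![fun j => l 0 (Pi.single j 1),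
    fun j => l 1 (Pi.single j 1), fun j => l 2 (Pi.single j 1), Pi.single m 1]
  have hR : ∀ v : Fin 4 → Om, R.mulVec v = ![l 0 v, l 1 v, l 2 v, v m] := by
    intro v
    ext n
    fin_cases n
    · show ∑ j, l 0 (Pi.single j 1) * v j = l 0 v
      rw [lsum 0 v]; exact Finset.sum_congr rfl fun j _ => mul_comm _ _
    · show ∑ j, l 1 (Pi.single j 1) * v j = l 1 v
      rw [lsum 1 v]; exact Finset.sum_congr rfl fun j _ => mul_comm _ _
    · show ∑ j, l 2 (Pi.single j 1) * v j = l 2 v
      rw [lsum 2 v]; exact Finset.sum_congr rfl fun j _ => mul_comm _ _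
    · show ∑ j, (Pi.single m 1 : Fin 4 → Om) j * v j = v m
      rw [Finset.sum_eq_single m]
      · simp
      · intro j _ hj
        rw [Pi.single_eq_of_ne hj]; ring
      · intro hh; exact absurd (Finset.mem_univ m) hh
  have hdet : R.det = 0 := by
    refine Matrix.exists_mulVec_eq_zero_iff.1 ⟨w, hw0, ?_⟩
    rw [hR]
    have e0 : l 0 w = 0 := hw 0
    have e1 : l 1 w = 0 := hw 1
    have e2 : l 2 w = 0 := hw 2
    rw [e0, e1, e2, hwm]
    ext n
    fin_cases n <;> rfl
  obtain ⟨c, hc0, hc⟩ := Matrix.exists_vecMul_eq_zero_iff.2 hdet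
  have hrel : ∀ v : Fin 4 → Om, c 0 * l 0 v + c 1 * l 1 v + c 2 * l 2 v + c 3 * v m = 0 := by
    intro v
    have h1 : c ⬝ᵥ (R.mulVec v) = 0 := by
      rw [Matrix.dotProduct_mulVec, hc, zero_dotProduct]
    rw [hR v] at h1
    simp only [dotProduct, Fin.sum_univ_four, Matrix.cons_val] at h1
    exact h1
  have hc3 : c 3 = 0 := by
    have h1 := hrel (up xi)
    have e0 : l 0 (up xi) = 0 := h.l0 0
    have e1 : l 1 (up xi) = 0 := h.l0 1
    have e2 : l 2 (up xi) = 0 := h.l0 2
    rw [e0, e1, e2] at h1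
    have h3 : c 3 * (up xi m : Om) = 0 := by linear_combination h1
    exact (mul_eq_zero.1 h3).resolve_right hm
  have k0 : c 0 = 0 := by
    by_contra hne
    refine h.step hm 0 fun v hv _ => ?_
    have h1 := hrel v
    have e1 : l 1 v = 0 := hv 1 (by decide)
    have e2 : l 2 v = 0 := hv 2 (by decide)
    rw [e1, e2, hc3] at h1
    have h3 : c 0 * l 0 v = 0 := by linear_combination h1
    exact (mul_eq_zero.1 h3).resolve_left hne
  have k1 : c 1 = 0 := by
    by_contra hne
    refine h.step hm 1 fun v hv _ => ?_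
    have h1 := hrel v
    have e1 : l 0 v = 0 := hv 0 (by decide)
    have e2 : l 2 v = 0 := hv 2 (by decide)
    rw [e1, e2, hc3] at h1
    have h3 : c 1 * l 1 v = 0 := by linear_combination h1
    exact (mul_eq_zero.1 h3).resolve_left hne
  have k2 : c 2 = 0 := by
    by_contra hne
    refine h.step hm 2 fun v hv _ => ?_
    have h1 := hrel v
    have e1 : l 0 v = 0 := hv 0 (by decide)
    have e2 : l 1 v = 0 := hv 1 (by decide)
    rw [e1, e2, hc3] at h1
    have h3 : c 2 * l 2 v = 0 := by linear_combination h1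
    exact (mul_eq_zero.1 h3).resolve_left hne
  apply hc0
  ext n
  fin_cases n
  · exact k0
  · exact k1
  · exact k2
  · exact hc3

end GZC

end

end Pool.Agent.H12.TC
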