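import Mathlib

/-! Relative algebraic closures of finitely generated subfields (problem MP_8b378c_ag). -/

open Polynomial Set

namespace Pool.Agent.H12.TC

section

variable (k : Type*) {Om : Type*} [Field k] [Field Om] [Algebra k Om]

/-- the relative algebraic closure of `k(S)` -/
def clo (S : Set Om) : IntermediateField k Om where
  carrier := {x | IsAlgebraic (Algebra.adjoin k S) x}
  mul_mem' := fun ha hb => IsAlgebraic.mul ha hb
  add_mem' := fun ha hb => IsAlgebraic.add ha hb
  algebraMap_mem' := fun r => by
    have h := isAlgebraic_algebraMap (R := Algebra.adjoin k S) (A := Om)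
      (algebraMap k (Algebra.adjoin k S) r)
    exact h
  inv_mem' := fun x hx => (IsAlgebraic.inv_iff (R := Algebra.adjoin k S) (x := x)).2 hx

variable {k}

theorem mem_clo {S : Set Om} {x : Om} : x ∈ clo k S ↔ IsAlgebraic (Algebra.adjoin k S) x := Iff.rfl

theorem subset_clo {S : Set Om} {x : Om} (hx : x ∈ S) : x ∈ clo k S :=
  isAlgebraic_algebraMap (R := Algebra.adjoin k S) (A := Om) ⟨x, Algebra.subset_adjoin hx⟩

theorem alg_mem_clo {S : Set Om} {x : Om} (hx : IsAlgebraic k x) : x ∈ clo k S :=
  hx.extendScalars (R := k) (S := Algebra.adjoin k S) (RingHom.injective _)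

theorem clo_sq {S : Set Om} {x : Om} (hx : x ^ 2 ∈ clo k S) : x ∈ clo k S :=
  IsAlgebraic.of_pow two_pos hx

theorem clo_quad {S : Set Om} {x α β γ : Om} (h2 : (2 : Om) ≠ 0) (ha : α ∈ clo k S)
    (hb : β ∈ clo k S) (hc : γ ∈ clo k S) (h0 : α ≠ 0) (h : α * x ^ 2 - γ * x + β = 0) :
    x ∈ clo k S := by
  have h2m : (2 : Om) ∈ clo k S := by
    have := (clo k S).algebraMap_mem (2 : k)
    rwa [map_ofNat] at this
  have h4m : (4 : Om) ∈ clo k S := by
    have := (clo k S).algebraMap_mem (4 : k)
    rwa [map_ofNat] at this
  have h1 : (2 * α * x - γ) ^ 2 ∈ clo k S := by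
    have e : (2 * α * x - γ) ^ 2 = γ ^ 2 - 4 * α * β := by linear_combination (4 * α) * h
    rw [e]
    exact sub_mem (pow_mem hc 2) (mul_mem (mul_mem h4m ha) hb)
  have h3 := clo_sq h1
  have h4 : x = (2 * α * x - γ + γ) / (2 * α) := by
    field_simp
    ring
  rw [h4]
  exact div_mem (add_mem h3 hc) (mul_mem h2m ha)

end

/-- a field of transcendence degree `7` is not inside the algebraic closure of `k(S)` for a set
with at most `6` elements -/
theorem not_all_clo {k F Om : Type*} [Field k] [Field F] [Field Om] [Algebra k F] [Algebra F Om]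
    [Algebra k Om] [IsScalarTower k F Om] (htr : Algebra.trdeg k F = 7) (S : Finset Om)
    (hS : S.card ≤ 6) : ¬ ∀ x : F, algebraMap F Om x ∈ clo k (S : Set Om) := by
  intro hall
  obtain ⟨B, hB⟩ := exists_isTranscendenceBasis k F
  have hc := hB.cardinalMk_eq_trdeg
  rw [htr] at hc
  have hinj : Function.Injective (algebraMap F Om) := FaithfulSMul.algebraMap_injective F Om
  have hind : AlgebraicIndependent k (fun x : B => algebraMap F Om (x : F)) := by
    have := hB.1.map' (f := IsScalarTower.toAlgHom k F Om) hinj
    exact this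
  have hind' := hind.to_subtype_range
  have hI : (AlgebraicIndependent.matroid k Om).Indep (range (fun x : B => algebraMap F Om (x : F))) :=
    AlgebraicIndependent.matroid_indep_iff.2 hind'
  have hsub : range (fun x : B => algebraMap F Om (x : F)) ⊆
      (AlgebraicIndependent.matroid k Om).closure (S : Set Om) := by
    rw [AlgebraicIndependent.matroid_closure_eq]
    rintro _ ⟨x, rfl⟩
    exact hall x
  have h1 := hI.encard_le_eRk_of_subset hsub
  rw [Matroid.eRk_closure_eq] at h1
  have h2 := ((AlgebraicIndependent.matroid k Om).eRk_le_encard (S : Set Om))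
  have h3 : (range (fun x : B => algebraMap F Om (x : F))).encard ≤ 6 := by
    refine (h1.trans h2).trans ?_
    rw [Set.encard_coe_eq_coe_finsetCard]
    exact_mod_cast hS
  have h4 : (range (fun x : B => algebraMap F Om (x : F))).encard = 7 := by
    have hinj2 : Function.Injective (fun x : B => algebraMap F Om (x : F)) :=
      fun x y h => Subtype.ext (hinj h)
    rw [← Set.image_univ, hinj2.encard_image, Set.encard_univ]
    have : ENat.card B = 7 := by
      rw [ENat.card, hc]
      simp
    exact this
  rw [h4] at h3
  exact absurd h3 (by decide)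

end Pool.Agent.H12.TC
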