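import Pool.Agent.H12.TC.Form

/-! The maximal isotropic subspaces over the cubic algebra (problem MP_8b378c_ag). -/

open Polynomial Set

namespace Pool.Agent.H12.TC

/-- product over the roots of a monic polynomial = resultant -/
theorem resultant_eq {k Om ι : Type*} [Field k] [Field Om] [Algebra k Om] [Fintype ι] {q : k[X]}
    {y : ι → Om} (h : Rts q y) (f : k[X]) :
    algebraMap k Om (q.resultant f) = ∏ j, Polynomial.aeval (y j) f := by
  have hs : (q.map (algebraMap k Om)).Splits := by
    rw [h.eq]
    exact Polynomial.Splits.prod fun i _ => Polynomial.Splits.X_sub_C _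
  have h1 := resultant_eq_prod_eval (q.map (algebraMap k Om)) (f.map (algebraMap k Om))
    (f.map (algebraMap k Om)).natDegree le_rfl hs
  have h2 : (q.map (algebraMap k Om)).leadingCoeff = 1 := (h.monic.map _)
  rw [h2, one_pow, one_mul, resultant_map_map, natDegree_map, natDegree_map] at h1
  have h3 : (∏ i, (X - C (y i)) : Om[X]) =
      ((Finset.univ.val.map y).map fun a => X - C a).prod := by
    rw [Multiset.map_map]; rfl
  rw [h1, h.eq, h3, Polynomial.roots_multiset_prod_X_sub_C, Multiset.map_map]
  simp only [Function.comp_apply, eval_map_algebraMap]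
  rfl

/-- values of linear combinations of polynomials -/
noncomputable def ev {k Om : Type*} [Field k] [Field Om] [Algebra k Om] (T : Fin 4 → k[X]) (x : Om)
    (w : Fin 4 → Om) : Om := ∑ j, w j * Polynomial.aeval x (T j)

/-- over an infinite field, a common non-zero of finitely many quadratic functions -/
theorem exists_common {k Om V ι : Type*} [Field k] [Infinite k] [Field Om] [Algebra k Om]
    [AddCommGroup V] [Module k V] (Q : ι → V → Om) (B : ι → V → V → Om)
    (hQ : ∀ i v w (t : k), Q i (v + t • w) = Q i v + algebraMap k Om t * B i v w +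
      algebraMap k Om t ^ 2 * Q i w) (s : Finset ι) (h : ∀ i ∈ s, ∃ v, Q i v ≠ 0) :
    ∃ v, ∀ i ∈ s, Q i v ≠ 0 := by
  classical
  induction s using Finset.induction_on with
  | empty => exact ⟨0, by simp⟩
  | insert a s ha ih =>
    obtain ⟨v, hv⟩ := ih fun i hi => h i (Finset.mem_insert_of_mem hi)
    obtain ⟨w, hw⟩ := h a (Finset.mem_insert_self a s)
    let P : ι → Om[X] := fun i => C (Q i v) + X * C (B i v w) + X ^ 2 * C (Q i w)
    have hP : ∀ i ∈ insert a s, P i ≠ 0 := by
      intro i hi h0
      have c0 := congrArg (fun f : Om[X] => f.coeff 0) h0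
      have c2 := congrArg (fun f : Om[X] => f.coeff 2) h0
      simp only [P, coeff_add, coeff_C_zero, coeff_zero] at c0 c2
      have e0 : (X * C (B i v w)).coeff 0 = 0 := by simp
      have e1 : (X ^ 2 * C (Q i w)).coeff 0 = 0 := by simp
      have e2 : (C (Q i v)).coeff 2 = 0 := by simp
      have e3 : (X * C (B i v w)).coeff 2 = 0 := by
        rw [X_mul_C, coeff_C_mul_X]; simp
      have e4 : (X ^ 2 * C (Q i w)).coeff 2 = Q i w := by
        rw [X_pow_mul_C, coeff_C_mul_X_pow]; simp
      rw [e0, e1, add_zero, add_zero] at c0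
      rw [e2, e3, e4, zero_add, zero_add] at c2
      rcases Finset.mem_insert.1 hi with rfl | hi
      · exact hw c2
      · exact hv i hi c0
    have hprod : (∏ i ∈ insert a s, P i) ≠ 0 := Finset.prod_ne_zero_iff.2 hP
    have hinf : (Set.range (algebraMap k Om)).Infinite :=
      Set.infinite_range_of_injective (algebraMap k Om).injective
    obtain ⟨_, ⟨t, rfl⟩, ht⟩ := hinf.exists_notMem_finset (∏ i ∈ insert a s, P i).roots.toFinset
    rw [Multiset.mem_toFinset, mem_roots hprod, IsRoot.def, eval_prod] at ht
    refine ⟨v + t • w, fun i hi => ?_⟩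
    have h1 := Finset.prod_ne_zero_iff.1 ht i hi
    rw [hQ]
    have h2 : (P i).eval (algebraMap k Om t) = Q i v + algebraMap k Om t * B i v w +
        algebraMap k Om t ^ 2 * Q i w := by
      simp only [P, eval_add, eval_mul, eval_C, eval_X, eval_pow]
    rw [← h2]
    exact h1

/-- a nonzero solution of three linear equations in four unknowns -/
theorem exists_kernel {K : Type*} [Field K] (f : Fin 4 → Fin 4 → K) (h3 : ∀ j, f 3 j = 0) :
    ∃ w : Fin 4 → K, w ≠ 0 ∧ ∀ i, ∑ j, f i j * w j = 0 := by
  have hdet : (Matrix.of f).det = 0 := Matrix.det_eq_zero_of_row_eq_zero 3 h3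
  obtain ⟨w, hw, h⟩ := Matrix.exists_mulVec_eq_zero_iff.2 hdet
  exact ⟨w, hw, fun i => congrFun h i⟩

end Pool.Agent.H12.TC
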