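import Pool.Agent.H12.TC.Core

/-! The maximal isotropic subspaces over the cubic algebra (problem MP_8b378c_ag), continued. -/

open Polynomial Set

namespace Pool.Agent.H12.TC

section

variable {K : Type*} [Field K]

/-- linear functions -/
def Lin (f : (Fin 4 → K) → K) : Prop := ∀ v, f v = ∑ j, v j * f (Pi.single j 1)

theorem Lin.add {f g : (Fin 4 → K) → K} (hf : Lin f) (hg : Lin g) : Lin (fun v => f v + g v) := by
  intro v
  simp only [mul_add, Finset.sum_add_distrib]
  rw [← hf v, ← hg v]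

theorem Lin.sub {f g : (Fin 4 → K) → K} (hf : Lin f) (hg : Lin g) : Lin (fun v => f v - g v) := by
  intro v
  simp only [mul_sub, Finset.sum_sub_distrib]
  rw [← hf v, ← hg v]

theorem Lin.smul {f : (Fin 4 → K) → K} (hf : Lin f) (c : K) : Lin (fun v => c * f v) := by
  intro v
  show c * f v = _
  rw [hf v, Finset.mul_sum]
  refine Finset.sum_congr rfl fun j _ => ?_
  ring

theorem Lin.of_eq {f g : (Fin 4 → K) → K} (hf : Lin f) (h : ∀ v, g v = f v) : Lin g := by
  have : g = f := funext h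
  rw [this]; exact hf

theorem Lin.map_add {f : (Fin 4 → K) → K} (hf : Lin f) (v w : Fin 4 → K) :
    f (v + w) = f v + f w := by
  rw [hf, hf v, hf w, ← Finset.sum_add_distrib]
  refine Finset.sum_congr rfl fun j _ => ?_
  rw [Pi.add_apply]; ring

theorem Lin.map_smul {f : (Fin 4 → K) → K} (hf : Lin f) (c : K) (v : Fin 4 → K) :
    f (c • v) = c * f v := by
  rw [hf, hf v, Finset.mul_sum]
  refine Finset.sum_congr rfl fun j _ => ?_
  rw [Pi.smul_apply, smul_eq_mul]; ring

end

theorem ev_lin {k Om : Type*} [Field k] [Field Om] [Algebra k Om] (T : Fin 4 → k[X]) (x : Om) :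
    Lin (ev T x) := by
  intro v
  unfold ev
  refine Finset.sum_congr rfl fun j _ => ?_
  congr 1
  rw [Finset.sum_eq_single j]
  · simp
  · intro b _ hb
    rw [Pi.single_eq_of_ne hb]; ring
  · intro h; exact absurd (Finset.mem_univ j) h

theorem exists_poly {k Om : Type*} [Field k] [Field Om] [Algebra k Om] {e : Fin 3 → Om}
    (f : Fin 3 → (Fin 4 → Om) → Om) (hlin : ∀ i, Lin (f i))
    (hmem : ∀ j, (fun i => f i (Pi.single j 1)) ∈ NN k e) :
    ∃ T : Fin 4 → k[X], ∀ i v, f i v = ev T (e i) v := by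
  choose T hT using fun j => mem_NN.1 (hmem j)
  refine ⟨T, fun i v => ?_⟩
  rw [hlin i v]
  unfold ev
  refine Finset.sum_congr rfl fun j _ => ?_
  rw [hT j i]

/-- vectors with coordinates in the subfield -/
def up {k Om : Type*} [Field k] [Field Om] [Algebra k Om] (w : Fin 4 → k) : Fin 4 → Om :=
  fun j => algebraMap k Om (w j)

theorem up_single {k Om : Type*} [Field k] [Field Om] [Algebra k Om] (j : Fin 4) :
    (up (Pi.single j 1 : Fin 4 → k) : Fin 4 → Om) = Pi.single j 1 := by
  ext l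
  unfold up
  by_cases h : l = j
  · subst h; simp
  · rw [Pi.single_eq_of_ne h, Pi.single_eq_of_ne h, map_zero]

theorem up_add {k Om : Type*} [Field k] [Field Om] [Algebra k Om] (v w : Fin 4 → k) :
    (up (v + w) : Fin 4 → Om) = up v + up w := by
  ext l; simp [up]

theorem up_smul {k Om : Type*} [Field k] [Field Om] [Algebra k Om] (t : k) (w : Fin 4 → k) :
    (up (t • w) : Fin 4 → Om) = algebraMap k Om t • up w := by
  ext l; simp [up]

section

variable {k Om : Type*} [Field k] [Field Om] [Algebra k Om] {p q ρ d s : k[X]} {e : Fin 3 → Om}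
  {y : Fin 2 → Om}

/-- the bilinear form at the node `x` -/
noncomputable def Phi (ρ d : k[X]) (y : Fin 2 → Om) (x : Om) (w w' : Fin 4 → Om) : Om :=
  phi y (fun j => Polynomial.aeval (y j) ρ) (fun j => Polynomial.aeval (y j) d) x w w'

theorem Phi_lin (x : Om) (w' : Fin 4 → Om) : Lin (fun v => Phi ρ d y x v w') :=
  fun v => phi_lin _ _ _ _ v w'

theorem Phi_mem (hq : Rts q y) (hρy : ∀ j, Polynomial.aeval (y j) ρ ≠ 0) (w w' : Fin 4 → k) :
    (fun i => Phi ρ d y (e i) (up w) (up w')) ∈ NN k e := by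
  let P : k[X] := (C (w 0) + C (w 1) * X) * (C (w' 0) + C (w' 1) * X) -
    d * ((C (w 2) + C (w 3) * X) * (C (w' 2) + C (w' 3) * X))
  have h1 := mul_mem_NN (poly_mem_NN y P) (hq.inv (poly_mem_NN y ρ) hρy)
  obtain ⟨R, hR, hRv⟩ := hq.red h1
  have hdeg : R.degree ≤ 1 := by
    have h3 : R.degree < ((2 : ℕ) : WithBot ℕ) := by simpa using hR
    exact Order.lt_succ_iff.1 (by
      have : Order.succ (1 : WithBot ℕ) = ((2 : ℕ) : WithBot ℕ) := rfl
      rw [this]; exact h3)
  have hRe := Polynomial.eq_X_add_C_of_degree_le_one hdeg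
  refine mem_NN.2 ⟨R, fun i => ?_⟩
  have hy : y 0 ≠ y 1 := fun h => by
    have := hq.inj h
    exact absurd this (by decide)
  have hval : ∀ x : Om, Polynomial.aeval x R = algebraMap k Om (R.coeff 0) +
      algebraMap k Om (R.coeff 1) * x := by
    intro x
    conv_lhs => rw [hRe]
    simp [add_comm]
  unfold Phi
  rw [phi_value (u := algebraMap k Om (R.coeff 0)) (v := algebraMap k Om (R.coeff 1)) hy hρy,
    hval]
  intro j
  show Polynomial.aeval (y j) ρ * _ = _
  rw [← hval, hRv j]
  have h4 := hρy j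
  field_simp
  simp only [P, up, map_sub, map_mul, map_add, aeval_C, aeval_X]
  ring

/-- the hypotheses on the roots -/
structure Base (p q ρ d s : k[X]) (e : Fin 3 → Om) (y : Fin 2 → Om) : Prop where
  h2 : (2 : Om) ≠ 0
  hp : Rts p e
  hq : Rts q y
  hey : ∀ i j, e i ≠ y j
  hρe : ∀ i, Polynomial.aeval (e i) ρ ≠ 0
  hρy : ∀ j, Polynomial.aeval (y j) ρ ≠ 0
  hde : ∀ i, Polynomial.aeval (e i) d ≠ 0
  hdy : ∀ j, Polynomial.aeval (y j) d ≠ 0
  hn : ∀ i, Polynomial.aeval (y 0) d * Polynomial.aeval (y 1) d =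
    Polynomial.aeval (e i) d * Polynomial.aeval (e i) s ^ 2

theorem Base.ne (h : Base p q ρ d s e y) : y 0 ≠ y 1 := fun hh =>
  absurd (h.hq.inj hh) (by decide)

theorem Base.nondeg (h : Base p q ρ d s e y) (i : Fin 3) {w : Fin 4 → Om}
    (hw : ∀ w', Phi ρ d y (e i) w w' = 0) : w = 0 :=
  phi_nondeg h.ne h.hρy h.hdy (h.hey i) hw

theorem core [Infinite k] (h : Base p q ρ d s e y) (A1 B1 A2 B2 : k[X]) (w1 w2 : Fin 4 → k)
    (h00 : ∀ i, Polynomial.aeval (e i) ρ * Phi ρ d y (e i) (up w1) (up w1) =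
      Polynomial.aeval (e i) A1 ^ 2 - Polynomial.aeval (e i) d * Polynomial.aeval (e i) B1 ^ 2)
    (h01 : ∀ i, Polynomial.aeval (e i) ρ * Phi ρ d y (e i) (up w1) (up w2) =
      Polynomial.aeval (e i) A1 * Polynomial.aeval (e i) A2 -
        Polynomial.aeval (e i) d * (Polynomial.aeval (e i) B1 * Polynomial.aeval (e i) B2))
    (h11 : ∀ i, Polynomial.aeval (e i) ρ * Phi ρ d y (e i) (up w2) (up w2) =
      Polynomial.aeval (e i) A2 ^ 2 - Polynomial.aeval (e i) d * Polynomial.aeval (e i) B2 ^ 2)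
    (hD : ∀ i, Polynomial.aeval (e i) A1 * Polynomial.aeval (e i) B2 -
      Polynomial.aeval (e i) A2 * Polynomial.aeval (e i) B1 ≠ 0) :
    ∃ TA TB XX YY : Fin 4 → k[X], ∀ i w, Polynomial.aeval (e i) ρ * Phi ρ d y (e i) w w =
      ev TA (e i) w ^ 2 - Polynomial.aeval (e i) d * ev TB (e i) w ^ 2 +
        ev XX (e i) w * ev YY (e i) w := by
  set r : Fin 3 → Om := fun i => Polynomial.aeval (e i) ρ with hr
  set dN : Fin 3 → Om := fun i => Polynomial.aeval (e i) d with hdN
  set a1 : Fin 3 → Om := fun i => Polynomial.aeval (e i) A1 with ha1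
  set b1 : Fin 3 → Om := fun i => Polynomial.aeval (e i) B1 with hb1
  set a2 : Fin 3 → Om := fun i => Polynomial.aeval (e i) A2 with ha2
  set b2 : Fin 3 → Om := fun i => Polynomial.aeval (e i) B2 with hb2
  let Dl : Fin 3 → Om := fun i => a1 i * b2 i - a2 i * b1 i
  -- memberships
  have mr : r ∈ NN k e := poly_mem_NN e ρ
  have md : dN ∈ NN k e := poly_mem_NN e d
  have ma1 : a1 ∈ NN k e := poly_mem_NN e A1
  have mb1 : b1 ∈ NN k e := poly_mem_NN e B1
  have ma2 : a2 ∈ NN k e := poly_mem_NN e A2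
  have mb2 : b2 ∈ NN k e := poly_mem_NN e B2
  have mDl : Dl ∈ NN k e := sub_mem_NN (mul_mem_NN ma1 mb2) (mul_mem_NN ma2 mb1)
  have mDli : (fun i => (Dl i)⁻¹) ∈ NN k e := h.hp.inv mDl hD
  have mdi : (fun i => (dN i)⁻¹) ∈ NN k e := h.hp.inv md h.hde
  let P : Fin 3 → (Fin 4 → Om) → (Fin 4 → Om) → Om := fun i v v' => Phi ρ d y (e i) v v'
  have mP : ∀ v v' : Fin 4 → k, (fun i => P i (up v) (up v')) ∈ NN k e :=
    fun v v' => Phi_mem h.hq h.hρy v v'
  let TA : Fin 3 → (Fin 4 → Om) → Om := fun i v =>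
    r i * (P i v (up w1) * b2 i - P i v (up w2) * b1 i) / (a1 i * b2 i - a2 i * b1 i)
  let TB : Fin 3 → (Fin 4 → Om) → Om := fun i v =>
    r i * (P i v (up w1) * a2 i - P i v (up w2) * a1 i) / (dN i * (a1 i * b2 i - a2 i * b1 i))
  let psi : Fin 3 → (Fin 4 → Om) → (Fin 4 → Om) → Om := fun i v v' =>
    r i * P i v v' - (TA i v * TA i v' - dN i * (TB i v * TB i v'))
  have lP : ∀ i v', Lin (fun v => P i v v') := fun i v' => Phi_lin (e i) v'
  have lTA : ∀ i, Lin (TA i) := by
    intro i
    refine (((((lP i (up w1)).smul (b2 i)).sub ((lP i (up w2)).smul (b1 i))).smul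
      (r i / (a1 i * b2 i - a2 i * b1 i)))).of_eq fun v => ?_
    simp only [TA]
    ring
  have lTB : ∀ i, Lin (TB i) := by
    intro i
    refine (((((lP i (up w1)).smul (a2 i)).sub ((lP i (up w2)).smul (a1 i))).smul
      (r i / (dN i * (a1 i * b2 i - a2 i * b1 i))))).of_eq fun v => ?_
    simp only [TB]
    ring
  have lpsi : ∀ i v', Lin (fun v => psi i v v') := by
    intro i v'
    refine (((lP i v').smul (r i)).sub (((lTA i).smul (TA i v')).sub
      ((lTB i).smul (dN i * TB i v')))).of_eq fun v => ?_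
    simp only [psi]
    ring
  have mTA : ∀ v : Fin 4 → k, (fun i => TA i (up v)) ∈ NN k e := by
    intro v
    have h1 := mul_mem_NN (mul_mem_NN mr (sub_mem_NN (mul_mem_NN (mP v w1) mb2)
      (mul_mem_NN (mP v w2) mb1))) mDli
    have e1 : (fun i => TA i (up v)) = fun i => r i * (P i (up v) (up w1) * b2 i -
        P i (up v) (up w2) * b1 i) * (Dl i)⁻¹ := by
      funext i; simp only [TA, Dl, div_eq_mul_inv]
    rw [e1]; exact h1
  have mTB : ∀ v : Fin 4 → k, (fun i => TB i (up v)) ∈ NN k e := by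
    intro v
    have h1 := mul_mem_NN (mul_mem_NN (mul_mem_NN mr (sub_mem_NN (mul_mem_NN (mP v w1) ma2)
      (mul_mem_NN (mP v w2) ma1))) mdi) mDli
    have e1 : (fun i => TB i (up v)) = fun i => r i * (P i (up v) (up w1) * a2 i -
        P i (up v) (up w2) * a1 i) * (dN i)⁻¹ * (Dl i)⁻¹ := by
      funext i; simp only [TB, Dl, div_eq_mul_inv, mul_inv]; ring
    rw [e1]; exact h1
  have mpsi : ∀ v v' : Fin 4 → k, (fun i => psi i (up v) (up v')) ∈ NN k e := by
    intro v v'
    exact sub_mem_NN (mul_mem_NN mr (mP v v')) (sub_mem_NN (mul_mem_NN (mTA v) (mTA v'))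
      (mul_mem_NN md (mul_mem_NN (mTB v) (mTB v'))))
  have psymm : ∀ i v v', psi i v v' = psi i v' v := by
    intro i v v'
    have h1 : P i v v' = P i v' v := phi_comm _ _ _ _ _ _
    simp only [psi, h1]
    ring
  have psum : ∀ i v v', psi i v v' = ∑ j, v j * psi i (Pi.single j 1) v' :=
    fun i v v' => lpsi i v' v
  have padd : ∀ i v w v', psi i (v + w) v' = psi i v v' + psi i w v' :=
    fun i v w v' => (lpsi i v').map_add v w
  have psmul : ∀ i c v v', psi i (c • v) v' = c * psi i v v' :=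
    fun i c v v' => (lpsi i v').map_smul c v
  -- psi is not zero on k^4
  have hne : ∀ i, ∃ v : Fin 4 → k, psi i (up v) (up v) ≠ 0 := by
    intro i
    by_contra hcon
    push Not at hcon
    have hpol : ∀ v v' : Fin 4 → k, psi i (up v) (up v') = 0 := by
      intro v v'
      have h1 := hcon (v + v')
      rw [up_add] at h1
      have h3 : psi i (up v + up v') (up v + up v') =
          psi i (up v) (up v) + 2 * psi i (up v) (up v') + psi i (up v') (up v') := by
        rw [padd, psymm i (up v), psymm i (up v'), padd, padd, psymm i (up v') (up v)]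
        ring
      rw [h3, hcon v, hcon v', zero_add, add_zero] at h1
      rcases mul_eq_zero.1 h1 with h4 | h4
      · exact absurd h4 h.h2
      · exact h4
    have hall : ∀ v v' : Fin 4 → Om, psi i v v' = 0 := by
      have h1 : ∀ (v : Fin 4 → k) (v' : Fin 4 → Om), psi i (up v) v' = 0 := by
        intro v v'
        rw [psymm, psum]
        refine Finset.sum_eq_zero fun j _ => ?_
        have h4 : psi i (Pi.single j 1) (up v) = 0 := by
          rw [← up_single (k := k)]; exact hpol _ _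
        show v' j * psi i (Pi.single j 1) (up v) = 0
        rw [h4, mul_zero]
      intro v v'
      rw [psum]
      refine Finset.sum_eq_zero fun j _ => ?_
      have h4 : psi i (Pi.single j 1) v' = 0 := by
        rw [← up_single (k := k)]; exact h1 _ _
      show v j * psi i (Pi.single j 1) v' = 0
      rw [h4, mul_zero]
    obtain ⟨w, hw0, hw⟩ := exists_kernel (K := Om) (fun n j =>
      if n = 0 then TA i (Pi.single j 1) else if n = 1 then TB i (Pi.single j 1) else 0)
      (fun j => by simp)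
    have k0 : TA i w = 0 := by
      have := hw 0
      simp only [if_true] at this
      rw [lTA i w, ← this]
      exact Finset.sum_congr rfl fun j _ => mul_comm _ _
    have k1 : TB i w = 0 := by
      have := hw 1
      simp only [one_ne_zero, if_false, if_true] at this
      rw [lTB i w, ← this]
      exact Finset.sum_congr rfl fun j _ => mul_comm _ _
    apply hw0
    refine h.nondeg i fun w' => ?_
    have h5 := hall w w'
    simp only [psi, k0, k1, zero_mul, mul_zero, sub_zero] at h5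
    rcases mul_eq_zero.1 h5 with h6 | h6
    · exact absurd h6 (h.hρe i)
    · exact h6
  -- the third vector
  obtain ⟨w3, hw3⟩ := exists_common (k := k) (V := Fin 4 → k)
    (fun i v => psi i (up v) (up v)) (fun i v w => 2 * psi i (up v) (up w)) (by
      intro i v w t
      show psi i (up (v + t • w)) (up (v + t • w)) = _
      rw [up_add, up_smul, padd, psmul, psymm i (up v), psymm i (up w), padd, padd, psmul, psmul,
        psymm i (up w) (up v)]
      ring) Finset.univ (fun i _ => hne i)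
  have hE : ∀ i, psi i (up w3) (up w3) ≠ 0 := fun i => hw3 i (Finset.mem_univ i)
  let nr : k := q.resultant ρ
  have hnr : algebraMap k Om nr = Polynomial.aeval (y 0) ρ * Polynomial.aeval (y 1) ρ := by
    rw [resultant_eq h.hq, Fin.prod_univ_two]
  have hq' : ∀ x : Om, Polynomial.aeval x q = (x - y 0) * (x - y 1) := by
    intro x
    rw [← eval_map_algebraMap, h.hq.eq, eval_prod, Fin.prod_univ_two]
    simp
  let sg : Fin 3 → Om := fun i => -(r i ^ 2 * ((e i - y 0) * (e i - y 1)) *
    Polynomial.aeval (e i) s / ((a1 i * b2 i - a2 i * b1 i) *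
      (Polynomial.aeval (y 0) ρ * Polynomial.aeval (y 1) ρ)))
  have msg : sg ∈ NN k e := by
    have h1 := mul_mem_NN (mul_mem_NN (mul_mem_NN (mul_mem_NN (mul_mem_NN mr mr)
      (poly_mem_NN e q)) (poly_mem_NN e s)) mDli) (const_mem_NN e (-(nr)⁻¹))
    have e1 : sg = fun i => r i * r i * Polynomial.aeval (e i) q * Polynomial.aeval (e i) s *
        (Dl i)⁻¹ * algebraMap k Om (-(nr)⁻¹) := by
      funext i
      simp only [sg, Dl]
      rw [hq', map_neg, map_inv₀, hnr, div_eq_mul_inv, mul_inv]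
      ring
    rw [e1]; exact h1
  let XX : Fin 3 → (Fin 4 → Om) → Om := fun i v =>
    psi i v (up w3) + sg i * D4 (up w1) (up w2) (up w3) v
  let YY : Fin 3 → (Fin 4 → Om) → Om := fun i v =>
    (psi i (up w3) (up w3))⁻¹ * (psi i v (up w3) - sg i * D4 (up w1) (up w2) (up w3) v)
  have lD : Lin (D4 (up w1) (up w2) (up w3) : (Fin 4 → Om) → Om) := D4_lin _ _ _
  have mD : ∀ (v : Fin 4 → k), (fun _ => D4 (up w1) (up w2) (up w3) (up v) : Fin 3 → Om) ∈
      NN k e := by
    intro v
    have h1 := const_mem_NN e (D4 w1 w2 w3 v)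
    have e1 : (fun _ => D4 (up w1) (up w2) (up w3) (up v) : Fin 3 → Om) =
        fun _ => algebraMap k Om (D4 w1 w2 w3 v) := by
      funext _
      exact D4_map _ _ _ _
    rw [e1]; exact h1
  have lXX : ∀ i, Lin (XX i) := fun i => (lpsi i (up w3)).add (lD.smul (sg i))
  have lYY : ∀ i, Lin (YY i) := fun i => ((lpsi i (up w3)).sub (lD.smul (sg i))).smul _
  have mXX : ∀ v : Fin 4 → k, (fun i => XX i (up v)) ∈ NN k e := fun v =>
    add_mem_NN (mpsi v w3) (mul_mem_NN msg (mD v))
  have mYY : ∀ v : Fin 4 → k, (fun i => YY i (up v)) ∈ NN k e := fun v =>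
    mul_mem_NN (h.hp.inv (mpsi w3 w3) hE) (sub_mem_NN (mpsi v w3) (mul_mem_NN msg (mD v)))
  obtain ⟨tA, htA⟩ := exists_poly TA lTA (fun j => by rw [← up_single (k := k)]; exact mTA _)
  obtain ⟨tB, htB⟩ := exists_poly TB lTB (fun j => by rw [← up_single (k := k)]; exact mTB _)
  obtain ⟨tX, htX⟩ := exists_poly XX lXX (fun j => by rw [← up_single (k := k)]; exact mXX _)
  obtain ⟨tY, htY⟩ := exists_poly YY lYY (fun j => by rw [← up_single (k := k)]; exact mYY _)
  refine ⟨tA, tB, tX, tY, fun i w => ?_⟩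
  rw [← htA, ← htB, ← htX, ← htY]
  have hid := disc_identity (y := y) (rM := fun j => Polynomial.aeval (y j) ρ)
    (dM := fun j => Polynomial.aeval (y j) d) (x := e i) (r := r i) (d := dN i)
    (s := Polynomial.aeval (e i) s) (a1 := a1 i) (b1 := b1 i) (a2 := a2 i) (b2 := b2 i)
    h.ne h.hρy (h.hρe i) (h.hde i) (hD i) (h.hn i) (up w1) (up w2) (up w3) w (h00 i) (h01 i)
    (h11 i) (TA i) (TB i) (fun v => rfl) (fun v => rfl) (psi i) (fun v v' => rfl)
  have hid2 : psi i (up w3) w ^ 2 - psi i (up w3) (up w3) * psi i w w =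
      (sg i * D4 (up w1) (up w2) (up w3) w) ^ 2 := hid
  have hXY : XX i w * YY i w = psi i w w := by
    simp only [XX, YY]
    rw [psymm i w (up w3)]
    have h7 := hE i
    have e1 : (psi i (up w3) w + sg i * D4 (up w1) (up w2) (up w3) w) *
        ((psi i (up w3) (up w3))⁻¹ * (psi i (up w3) w - sg i * D4 (up w1) (up w2) (up w3) w)) =
        (psi i (up w3) (up w3))⁻¹ * (psi i (up w3) w ^ 2 -
          (sg i * D4 (up w1) (up w2) (up w3) w) ^ 2) := by ring
    rw [e1, ← hid2, sub_sub_cancel, ← mul_assoc, inv_mul_cancel₀ h7, one_mul]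
  rw [hXY]
  simp only [psi]
  ring

end

end Pool.Agent.H12.TC
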