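import Mathlib

/-! The equations of the torsors (problem MP_8b378c_ag). -/

open Polynomial

namespace Pool.Agent.H12.TC

/-- Let `m` be a monic separable polynomial over the field `k`, `k[e] = k[X]/(m)`, and let `ρ`, `d`
be units of `k[e]`, given by polynomials.  `(u, v, A, B)` is a zero, with coordinates in the
extension `F` of `k`, of the equations `ρ(e) (u - e v) = A(e)^2 - d(e) B(e)^2` in
`F ⊗ k[e] = F[X]/(m)`.  Here `A(e)`, `B(e)` are general elements of `F ⊗ k[e]`, given by
polynomials of degree less than the degree of `m`; the right hand side is the norm of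
`A(e) + B(e) √d(e)`. -/
structure TorsorZero {k F : Type*} [Field k] [Field F] [Algebra k F] (m ρ d : k[X]) (u v : F)
    (A B : F[X]) : Prop where
  degA : A.degree < m.degree
  degB : B.degree < m.degree
  eqn : m.map (algebraMap k F) ∣ ρ.map (algebraMap k F) * (C u - C v * X) -
    (A ^ 2 - d.map (algebraMap k F) * B ^ 2)

end Pool.Agent.H12.TC
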