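import Pool.Agent.H12.TC.Chain

/-! Rationality of the field generated by a generic zero (problem MP_8b378c_ag). -/

open Polynomial Set

namespace Pool.Agent.H12.TC

section

variable {k F Om : Type*} [Field k] [Field F] [Field Om] [Algebra k F]
  [Algebra F Om] [Algebra k Om] [IsScalarTower k F Om] {p q ρ d s : k[X]} {e : Fin 3 → Om}
  {y : Fin 2 → Om}

theorem nodes_rts (h : Base p q ρ d s e y) : Rts (p * q) (Sum.elim e y) where
  inj := nodes_inj h
  eq := by
    rw [Polynomial.map_mul, h.hp.eq, h.hq.eq, Fintype.prod_sum_type]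
    simp

section

variable {E : Type*} [Field E] [Algebra k E] [Algebra E Om] [IsScalarTower k E Om]

theorem crt (h : Base p q ρ d s e y) {g : Fin 3 → Om} {g' : Fin 2 → Om} (hg : g ∈ NN E e)
    (hg' : g' ∈ NN E y) : ∃ f : E[X], f.degree < 5 ∧ (∀ i, Polynomial.aeval (e i) f = g i) ∧
      ∀ j, Polynomial.aeval (y j) f = g' j := by
  obtain ⟨f1, hf1⟩ := mem_NN.1 hg
  obtain ⟨f2, hf2⟩ := mem_NN.1 hg'
  have hq0 : ∀ i, Polynomial.aeval (e i) q ≠ 0 := by
    intro i
    rw [← eval_map_algebraMap, h.hq.eq, eval_prod]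
    refine Finset.prod_ne_zero_iff.2 fun j _ => ?_
    simp only [eval_sub, eval_X, eval_C]
    exact sub_ne_zero.2 (h.hey i j)
  obtain ⟨a, b, hab⟩ := h.hp.coprime (E := k) q hq0
  rw [show p.map (algebraMap k k) = p from Polynomial.map_id] at hab
  have he : ∀ i, Polynomial.aeval (e i) b * Polynomial.aeval (e i) q = 1 := by
    intro i
    have h1 := congrArg (Polynomial.aeval (e i)) hab
    rw [map_add, map_mul, map_mul, h.hp.root, mul_zero, zero_add, map_one] at h1
    exact h1
  have hy : ∀ j, Polynomial.aeval (y j) a * Polynomial.aeval (y j) p = 1 := by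
    intro j
    have h1 := congrArg (Polynomial.aeval (y j)) hab
    rw [map_add, map_mul, map_mul, h.hq.root, mul_zero, add_zero, map_one] at h1
    exact h1
  let f0 : E[X] := f1 * (b * q).map (algebraMap k E) + f2 * (a * p).map (algebraMap k E)
  have m0 : Sum.elim g g' ∈ NN E (Sum.elim e y) := by
    refine mem_NN.2 ⟨f0, ?_⟩
    rintro (i | j)
    · simp only [Sum.elim_inl, f0, map_add, map_mul, aeval_tower]
      rw [hf1, he, h.hp.root]
      ring
    · simp only [Sum.elim_inr, f0, map_add, map_mul, aeval_tower]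
      rw [hf2, hy, h.hq.root]
      ring
  obtain ⟨f, hf, hfv⟩ := (nodes_rts h).red m0
  refine ⟨f, by simpa using hf, fun i => hfv (Sum.inl i), fun j => hfv (Sum.inr j)⟩

theorem ev_mem_NN (T : Fin 4 → k[X]) (w : Fin 4 → E) :
    (fun i => ev T (e i) (up w)) ∈ NN E e := by
  refine mem_NN.2 ⟨∑ j, C (w j) * (T j).map (algebraMap k E), fun i => ?_⟩
  rw [map_sum]
  unfold ev
  refine Finset.sum_congr rfl fun j _ => ?_
  rw [map_mul, aeval_C, aeval_tower]
  rfl

theorem poly_mem_NN' (f : k[X]) {ι : Type*} (n : ι → Om) :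
    (fun i => Polynomial.aeval (n i) f) ∈ NN E n := by
  refine mem_NN.2 ⟨f.map (algebraMap k E), fun i => aeval_tower _ _⟩

end

/-- transcendence degree equal to the number of generators -/
theorem algInd_of_gen (t : Fin 7 → F) (hgen : IntermediateField.adjoin k (range t) = ⊤)
    (htr : Algebra.trdeg k F = 7) : AlgebraicIndependent k t := by
  have h1 : IntermediateField.adjoin k (range t) ≤ clo k (range t) := by
    rw [IntermediateField.adjoin_le_iff]
    intro x hx
    exact subset_clo hx
  rw [hgen] at h1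
  have : Algebra.IsAlgebraic (Algebra.adjoin k (range t)) F :=
    ⟨fun x => h1 (IntermediateField.mem_top (x := x))⟩
  refine (Algebra.IsAlgebraic.isTranscendenceBasis_of_lift_le_trdeg_of_finite k t ?_).1
  rw [htr]
  simp

variable [IsAlgClosed Om]

theorem GZC.rational {u v : F} {A B : F[X]} {xi : Fin 4 → F} {TA TB XX YY : Fin 4 → k[X]}
    (h : GZC p q ρ d s e y u v A B xi TA TB XX YY) :
    ∃ t : Fin 7 → F, AlgebraicIndependent k t ∧ IntermediateField.adjoin k (range t) = ⊤ := by
  -- a nonzero coordinate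
  obtain ⟨m, hm⟩ : ∃ m, xi m ≠ 0 := by
    by_contra hcon
    push Not at hcon
    apply h.gz.nz1 0
    unfold Phi phi up
    simp [hcon]
  have hm' : (up xi m : Om) ≠ 0 := by
    unfold up
    exact (_root_.map_ne_zero _).2 hm
  -- the parameters z
  have minv : (fun i => (ev XX (e i) (up xi))⁻¹) ∈ NN F e :=
    h.gz.base.hp.inv (ev_mem_NN XX xi) (fun i => h.nz2 i)
  have mzA : (fun i => zA (e i) A xi TA XX) ∈ NN F e := by
    have h1 := mul_mem_NN (sub_mem_NN (poly_mem_NN e A) (ev_mem_NN (k := k) TA xi)) minv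
    have e1 : (fun i => zA (e i) A xi TA XX) = fun i =>
        (Polynomial.aeval (e i) A - ev TA (e i) (up xi)) * (ev XX (e i) (up xi))⁻¹ := by
      funext i; rw [zA, div_eq_mul_inv]
    rw [e1]; exact h1
  have mzB : (fun i => zA (e i) B xi TB XX) ∈ NN F e := by
    have h1 := mul_mem_NN (sub_mem_NN (poly_mem_NN e B) (ev_mem_NN (k := k) TB xi)) minv
    have e1 : (fun i => zA (e i) B xi TB XX) = fun i =>
        (Polynomial.aeval (e i) B - ev TB (e i) (up xi)) * (ev XX (e i) (up xi))⁻¹ := by
      funext i; rw [zA, div_eq_mul_inv]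
    rw [e1]; exact h1
  obtain ⟨ZA, hZAd, hZA⟩ := h.gz.base.hp.red (k := k) mzA
  obtain ⟨ZB, hZBd, hZB⟩ := h.gz.base.hp.red (k := k) mzB
  -- the field generated by the coefficients of z
  let E : IntermediateField k F := IntermediateField.adjoin k (range ZA.coeff ∪ range ZB.coeff)
  have hZAE : ∀ n, ZA.coeff n ∈ E := fun n =>
    IntermediateField.subset_adjoin k _ (Or.inl ⟨n, rfl⟩)
  have hZBE : ∀ n, ZB.coeff n ∈ E := fun n =>
    IntermediateField.subset_adjoin k _ (Or.inr ⟨n, rfl⟩)
  -- polynomials over a subfield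
  have lift : ∀ (E' : IntermediateField k F) (f : F[X]), (∀ n, f.coeff n ∈ E') →
      ∃ f' : E'[X], ∀ x : Om, Polynomial.aeval x f' = Polynomial.aeval x f := by
    intro E' f hf
    have h1 : f ∈ Polynomial.lifts (algebraMap E' F) := by
      rw [Polynomial.lifts_iff_coeff_lifts]
      intro n
      exact ⟨⟨f.coeff n, hf n⟩, rfl⟩
    obtain ⟨f', hf'⟩ := (Polynomial.mem_lifts _).1 h1
    refine ⟨f', fun x => ?_⟩
    rw [← hf', Polynomial.aeval_map_algebraMap]
  have memZ : ∀ (E' : IntermediateField k F), E ≤ E' →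
      (fun i => zA (e i) A xi TA XX) ∈ NN E' e ∧ (fun i => zA (e i) B xi TB XX) ∈ NN E' e := by
    intro E' hE'
    obtain ⟨f1, hf1⟩ := lift E' ZA (fun n => hE' (hZAE n))
    obtain ⟨f2, hf2⟩ := lift E' ZB (fun n => hE' (hZBE n))
    exact ⟨mem_NN.2 ⟨f1, fun i => by rw [hf1, hZA]⟩, mem_NN.2 ⟨f2, fun i => by rw [hf2, hZB]⟩⟩
  -- the linear equations over E
  have hrow : ∀ j : Fin 4, ∃ H : E[X], H.degree < 3 ∧ ∀ i, Polynomial.aeval (e i) H =
      ll d (e i) A B xi TA TB XX YY (Pi.single j 1) := by
    intro j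
    obtain ⟨m1, m2⟩ := memZ E le_rfl
    have ms : ∀ T : Fin 4 → k[X], (fun i => ev T (e i) (Pi.single j 1)) ∈ NN E e := by
      intro T
      have h1 := ev_mem_NN (E := E) (e := e) T (Pi.single j 1)
      rw [up_single] at h1
      exact h1
    have md : (fun i => Polynomial.aeval (e i) d) ∈ NN E e := poly_mem_NN' d e
    have m3 := sub_mem_NN (add_mem_NN (mul_mem_NN (const_mem_NN e (2 : E)) (sub_mem_NN
      (mul_mem_NN m1 (ms TA)) (mul_mem_NN (mul_mem_NN md m2) (ms TB))))
      (mul_mem_NN (sub_mem_NN (mul_mem_NN m1 m1) (mul_mem_NN md (mul_mem_NN m2 m2))) (ms XX)))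
      (ms YY)
    obtain ⟨H, hH, hHv⟩ := h.gz.base.hp.red (k := k) m3
    refine ⟨H, by simpa using hH, fun i => ?_⟩
    rw [hHv i]
    unfold ll
    rw [map_ofNat]
    ring
  choose H hHd hH using hrow
  obtain ⟨w, hw0, hw⟩ := exists_kernel3 (K := E) (fun n j => (H j).coeff n)
  have hsumH : ∑ j, C (w j) * H j = 0 := by
    refine Polynomial.ext fun n => ?_
    rw [finsetSum_coeff, coeff_zero]
    by_cases hn : n < 3
    · rw [← hw ⟨n, hn⟩]
      refine Finset.sum_congr rfl fun j _ => ?_
      rw [coeff_C_mul, mul_comm]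
    · refine Finset.sum_eq_zero fun j _ => ?_
      rw [coeff_C_mul, coeff_eq_zero_of_degree_lt, mul_zero]
      refine (hHd j).trans_le ?_
      exact_mod_cast not_lt.1 hn
  let w' : Fin 4 → F := fun j => (w j : F)
  have hlw : ∀ i, ll d (e i) A B xi TA TB XX YY (up w') = 0 := by
    intro i
    rw [ll_lin (e i) A B xi TA TB XX YY (up w')]
    have h1 := congrArg (Polynomial.aeval (e i)) hsumH
    rw [map_sum, map_zero] at h1
    rw [← h1]
    refine Finset.sum_congr rfl fun j _ => ?_
    rw [map_mul, aeval_C, hH j i]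
    rfl
  -- proportionality
  let μ : F := w' m / xi m
  have hprop : ∀ j, w' j = μ * xi j := by
    have h1 : (up w' : Fin 4 → Om) + (-(algebraMap F Om μ)) • up xi = 0 := by
      refine h.ker hm' ?_ fun i => ?_
      · simp only [Pi.add_apply, Pi.smul_apply, smul_eq_mul, up, μ]
        rw [map_div₀]
        have hm2 : algebraMap F Om (xi m) ≠ 0 := hm'
        field_simp
        ring
      · have hL := ll_lin (d := d) (e i) A B xi TA TB XX YY
        rw [hL.map_add, hL.map_smul, hlw i, h.l0 i]
        ring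
    intro j
    have h3 := congrFun h1 j
    simp only [Pi.add_apply, Pi.smul_apply, smul_eq_mul, up, Pi.zero_apply] at h3
    apply (algebraMap F Om).injective
    rw [map_mul]
    linear_combination h3
  have hμ : μ ≠ 0 := by
    intro h0
    apply hw0
    ext j
    have h1 := hprop j
    rw [h0, zero_mul] at h1
    exact h1
  -- the seven generators
  let t : Fin 7 → F := ![ZA.coeff 0, ZA.coeff 1, ZA.coeff 2, ZB.coeff 0, ZB.coeff 1, ZB.coeff 2, μ]
  have hgen : IntermediateField.adjoin k (range t) = ⊤ := by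
    set F' := IntermediateField.adjoin k (range t) with hF'
    have ht : ∀ n, t n ∈ F' := fun n => IntermediateField.subset_adjoin k _ ⟨n, rfl⟩
    have hcoefA : ∀ n, ZA.coeff n ∈ F' := by
      intro n
      by_cases hn : n < 3
      · interval_cases n
        · exact ht 0
        · exact ht 1
        · exact ht 2
      · rw [coeff_eq_zero_of_degree_lt]
        · exact zero_mem F'
        · refine hZAd.trans_le ?_
          rw [Fintype.card_fin]
          exact_mod_cast not_lt.1 hn
    have hcoefB : ∀ n, ZB.coeff n ∈ F' := by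
      intro n
      by_cases hn : n < 3
      · interval_cases n
        · exact ht 3
        · exact ht 4
        · exact ht 5
      · rw [coeff_eq_zero_of_degree_lt]
        · exact zero_mem F'
        · refine hZBd.trans_le ?_
          rw [Fintype.card_fin]
          exact_mod_cast not_lt.1 hn
    have hEF : E ≤ F' := by
      rw [IntermediateField.adjoin_le_iff]
      rintro x (⟨n, rfl⟩ | ⟨n, rfl⟩)
      · exact hcoefA n
      · exact hcoefB n
    have hμF : μ ∈ F' := ht 6
    have hxi : ∀ j, xi j ∈ F' := by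
      intro j
      have h1 : xi j = w' j / μ := by rw [hprop j]; field_simp
      rw [h1]
      exact div_mem (hEF (w j).2) hμF
    let x' : Fin 4 → F' := fun j => ⟨xi j, hxi j⟩
    have hup : (up x' : Fin 4 → Om) = up xi := by
      ext j; rfl
    obtain ⟨m1, m2⟩ := memZ F' hEF
    have mev : ∀ T : Fin 4 → k[X], (fun i => ev T (e i) (up xi)) ∈ NN F' e := by
      intro T
      have h1 := ev_mem_NN (E := F') (e := e) T x'
      rw [hup] at h1
      exact h1
    have mAe : (fun i => Polynomial.aeval (e i) A) ∈ NN F' e := by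
      have h1 := add_mem_NN (mev TA) (mul_mem_NN m1 (mev XX))
      have e1 : (fun i => Polynomial.aeval (e i) A) = fun i => ev TA (e i) (up xi) +
          zA (e i) A xi TA XX * ev XX (e i) (up xi) := by
        funext i
        have hX := h.nz2 i
        rw [zA]
        field_simp
        ring
      rw [e1]; exact h1
    have mBe : (fun i => Polynomial.aeval (e i) B) ∈ NN F' e := by
      have h1 := add_mem_NN (mev TB) (mul_mem_NN m2 (mev XX))
      have e1 : (fun i => Polynomial.aeval (e i) B) = fun i => ev TB (e i) (up xi) +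
          zA (e i) B xi TB XX * ev XX (e i) (up xi) := by
        funext i
        have hX := h.nz2 i
        rw [zA]
        field_simp
        ring
      rw [e1]; exact h1
    have mAy : (fun j => Polynomial.aeval (y j) A) ∈ NN F' y := by
      refine mem_NN.2 ⟨C (x' 0) + C (x' 1) * X, fun j => ?_⟩
      rw [h.gz.Ay j, map_add, map_mul, aeval_C, aeval_C, aeval_X]
      rfl
    have mBy : (fun j => Polynomial.aeval (y j) B) ∈ NN F' y := by
      refine mem_NN.2 ⟨C (x' 2) + C (x' 3) * X, fun j => ?_⟩
      rw [h.gz.By j, map_add, map_mul, aeval_C, aeval_C, aeval_X]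
      rfl
    have hcoef : ∀ f : F[X], f.degree < 5 → (fun i => Polynomial.aeval (e i) f) ∈ NN F' e →
        (fun j => Polynomial.aeval (y j) f) ∈ NN F' y → ∀ n, f.coeff n ∈ F' := by
      intro f hf h1 h2 n
      obtain ⟨f', hf'd, hf'e, hf'y⟩ := crt (E := F') h.gz.base h1 h2
      have h3 : f = f'.map (algebraMap F' F) := by
        refine poly_unique (Om := Om) (e := Sum.elim e y) (nodes_inj h.gz.base) (by simpa using hf)
          ?_ ?_
        · rw [degree_map]; simpa using hf'd
        · rintro (i | j)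
          · rw [Sum.elim_inl, Polynomial.aeval_map_algebraMap, hf'e]
          · rw [Sum.elim_inr, Polynomial.aeval_map_algebraMap, hf'y]
      rw [h3, coeff_map]
      exact (f'.coeff n).2
    have hAc := hcoef A h.gz.dA mAe mAy
    have hBc := hcoef B h.gz.dB mBe mBy
    -- u and v
    have muv : (fun j => Polynomial.aeval (y j) (C u - C v * X)) ∈ NN F' y := by
      have h1 := mul_mem_NN (sub_mem_NN (mul_mem_NN mAy mAy) (mul_mem_NN (poly_mem_NN' d y)
        (mul_mem_NN mBy mBy))) (h.gz.base.hq.inv (E := F') (poly_mem_NN' ρ y) h.gz.base.hρy)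
      have e1 : (fun j => Polynomial.aeval (y j) (C u - C v * X)) = fun j =>
          (Polynomial.aeval (y j) A * Polynomial.aeval (y j) A - Polynomial.aeval (y j) d *
            (Polynomial.aeval (y j) B * Polynomial.aeval (y j) B)) *
            (Polynomial.aeval (y j) ρ)⁻¹ := by
        funext j
        have h2 := h.gz.zy j
        have h3 := h.gz.base.hρy j
        rw [map_sub, map_mul, aeval_C, aeval_C, aeval_X, eq_mul_inv_iff_mul_eq₀ h3]
        linear_combination h2
      rw [e1]; exact h1
    obtain ⟨g, hgd, hg⟩ := h.gz.base.hq.red (k := k) muv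
    have huv : C u - C v * X = g.map (algebraMap F' F) := by
      refine poly_unique (Om := Om) h.gz.base.hq.inj ?_ ?_ ?_
      · have h1 : (C u - C v * X).degree ≤ 1 := by
          refine (degree_sub_le _ _).trans (max_le (degree_C_le.trans (by decide)) ?_)
          exact degree_C_mul_X_le v
        refine h1.trans_lt ?_
        rw [Fintype.card_fin]
        exact_mod_cast (by norm_num : (1 : ℕ) < 2)
      · rw [degree_map]; exact hgd
      · intro j
        rw [Polynomial.aeval_map_algebraMap, hg]
    have hu : u ∈ F' := by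
      have h1 := congrArg (fun f : F[X] => f.coeff 0) huv
      simp only [coeff_sub, coeff_C_zero, mul_coeff_zero, coeff_X_zero, mul_zero, sub_zero,
        coeff_map] at h1
      rw [h1]; exact (g.coeff 0).2
    have hv : v ∈ F' := by
      have h1 := congrArg (fun f : F[X] => f.coeff 1) huv
      simp only [coeff_sub, coeff_C_mul, coeff_X_one, mul_one, coeff_map, coeff_C_succ,
        zero_sub] at h1
      have h2 : v = -(algebraMap F' F (g.coeff 1)) := by rw [← h1, neg_neg]
      rw [h2]; exact neg_mem (g.coeff 1).2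
    have hle : IntermediateField.adjoin k ({u, v} ∪ range A.coeff ∪ range B.coeff) ≤ F' := by
      rw [IntermediateField.adjoin_le_iff]
      rintro z ((hz | ⟨n, rfl⟩) | ⟨n, rfl⟩)
      · rcases hz with rfl | hz
        · exact hu
        · rw [Set.mem_singleton_iff.1 hz]; exact hv
      · exact hAc n
      · exact hBc n
    rw [h.gz.gen] at hle
    exact top_le_iff.1 hle
  exact ⟨t, algInd_of_gen t hgen h.gz.tr, hgen⟩

end

end Pool.Agent.H12.TC
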