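import Pool.Agent.H12.TC.Nodes
import Pool.Agent.H12.TC.Alg

/-! The pencil of quaternary forms (problem MP_8b378c_ag). -/

open Polynomial Set

namespace Pool.Agent.H12.TC

section

variable {K : Type*} [Field K]

/-- first coefficient of the form `phi` -/
def c0 (y rM : Fin 2 → K) (x : K) : K := (x - y 1) / ((y 0 - y 1) * rM 0)

/-- second coefficient of the form `phi` -/
def c1 (y rM : Fin 2 → K) (x : K) : K := (x - y 0) / ((y 1 - y 0) * rM 1)

/-- The bilinear form `(w, w') ↦ G(x)`, where `G` is the polynomial of degree at most one with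
`rM j * G (y j) = C (y j) * C' (y j) - dM j * D (y j) * D' (y j)`, `w = (C, D)`,
`w' = (C', D')`. -/
def phi (y rM dM : Fin 2 → K) (x : K) (w w' : Fin 4 → K) : K :=
  c0 y rM x * ((w 0 + w 1 * y 0) * (w' 0 + w' 1 * y 0) -
    dM 0 * ((w 2 + w 3 * y 0) * (w' 2 + w' 3 * y 0))) +
  c1 y rM x * ((w 0 + w 1 * y 1) * (w' 0 + w' 1 * y 1) -
    dM 1 * ((w 2 + w 3 * y 1) * (w' 2 + w' 3 * y 1)))

theorem phi_comm (y rM dM : Fin 2 → K) (x : K) (w w' : Fin 4 → K) :
    phi y rM dM x w w' = phi y rM dM x w' w := by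
  unfold phi; ring

theorem sum_single (f : Fin 4 → K) (a : Fin 4 → K) (h : (Fin 4 → K) → K)
    (hh : ∀ w : Fin 4 → K, h w = w 0 * a 0 + w 1 * a 1 + w 2 * a 2 + w 3 * a 3) :
    h f = ∑ j, f j * h (Pi.single j 1) := by
  have e : ∀ j : Fin 4, h (Pi.single j 1) = a j := by
    intro j
    rw [hh]
    fin_cases j <;> simp
  rw [Fin.sum_univ_four, e, e, e, e, hh]

theorem phi_lin (y rM dM : Fin 2 → K) (x : K) (w w' : Fin 4 → K) :
    phi y rM dM x w w' = ∑ j, w j * phi y rM dM x (Pi.single j 1) w' := by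
  refine sum_single w ![c0 y rM x * (w' 0 + w' 1 * y 0) + c1 y rM x * (w' 0 + w' 1 * y 1),
    c0 y rM x * (y 0 * (w' 0 + w' 1 * y 0)) + c1 y rM x * (y 1 * (w' 0 + w' 1 * y 1)),
    -c0 y rM x * (dM 0 * (w' 2 + w' 3 * y 0)) - c1 y rM x * (dM 1 * (w' 2 + w' 3 * y 1)),
    -c0 y rM x * (y 0 * (dM 0 * (w' 2 + w' 3 * y 0))) -
      c1 y rM x * (y 1 * (dM 1 * (w' 2 + w' 3 * y 1)))]
    (fun w => phi y rM dM x w w') ?_
  intro w
  simp only [phi, Matrix.cons_val]
  ring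

theorem phi_nondeg {y rM dM : Fin 2 → K} {x : K} (hy : y 0 ≠ y 1) (hr : ∀ j, rM j ≠ 0)
    (hd : ∀ j, dM j ≠ 0) (hx : ∀ j, x ≠ y j) {w : Fin 4 → K}
    (h : ∀ w', phi y rM dM x w w' = 0) : w = 0 := by
  have h01 : y 0 - y 1 ≠ 0 := sub_ne_zero.2 hy
  have h10 : y 1 - y 0 ≠ 0 := sub_ne_zero.2 hy.symm
  have hc0 : c0 y rM x ≠ 0 := div_ne_zero (sub_ne_zero.2 (hx 1)) (mul_ne_zero h01 (hr 0))
  have hc1 : c1 y rM x ≠ 0 := div_ne_zero (sub_ne_zero.2 (hx 0)) (mul_ne_zero h10 (hr 1))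
  have g0 : w 0 + w 1 * y 0 = 0 := by
    have := h ![-y 1, 1, 0, 0]
    simp only [phi, Matrix.cons_val] at this
    have e : c0 y rM x * (w 0 + w 1 * y 0) * (y 0 - y 1) = 0 := by linear_combination this
    simpa [hc0, h01] using e
  have g1 : w 0 + w 1 * y 1 = 0 := by
    have := h ![-y 0, 1, 0, 0]
    simp only [phi, Matrix.cons_val] at this
    have e : c1 y rM x * (w 0 + w 1 * y 1) * (y 1 - y 0) = 0 := by linear_combination this
    simpa [hc1, h10] using e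
  have g2 : w 2 + w 3 * y 0 = 0 := by
    have := h ![0, 0, -y 1, 1]
    simp only [phi, Matrix.cons_val] at this
    have e : c0 y rM x * dM 0 * (w 2 + w 3 * y 0) * (y 0 - y 1) = 0 := by
      linear_combination -this
    simpa [hc0, h01, hd 0] using e
  have g3 : w 2 + w 3 * y 1 = 0 := by
    have := h ![0, 0, -y 0, 1]
    simp only [phi, Matrix.cons_val] at this
    have e : c1 y rM x * dM 1 * (w 2 + w 3 * y 1) * (y 1 - y 0) = 0 := by
      linear_combination -this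
    simpa [hc1, h10, hd 1] using e
  have k1 : w 1 = 0 := by
    have e : w 1 * (y 0 - y 1) = 0 := by linear_combination g0 - g1
    simpa [h01] using e
  have k3 : w 3 = 0 := by
    have e : w 3 * (y 0 - y 1) = 0 := by linear_combination g2 - g3
    simpa [h01] using e
  have k0 : w 0 = 0 := by rw [k1] at g0; simpa using g0
  have k2 : w 2 = 0 := by rw [k3] at g2; simpa using g2
  ext j
  fin_cases j
  · exact k0
  · exact k1
  · exact k2
  · exact k3

/-- value at `x` of a polynomial of degree at most one from the values at `y 0`, `y 1` -/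
theorem phi_value {y rM dM : Fin 2 → K} {x u v : K} (hy : y 0 ≠ y 1) (hr : ∀ j, rM j ≠ 0)
    (w w' : Fin 4 → K) (h : ∀ j, rM j * (u + v * y j) = (w 0 + w 1 * y j) * (w' 0 + w' 1 * y j) -
      dM j * ((w 2 + w 3 * y j) * (w' 2 + w' 3 * y j))) :
    phi y rM dM x w w' = u + v * x := by
  have h01 : y 0 - y 1 ≠ 0 := sub_ne_zero.2 hy
  have h10 : y 1 - y 0 ≠ 0 := sub_ne_zero.2 hy.symm
  have r0 := hr 0
  have r1 := hr 1
  unfold phi c0 c1
  rw [← h 0, ← h 1]
  have e0 : (x - y 1) / ((y 0 - y 1) * rM 0) * (rM 0 * (u + v * y 0)) =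
      (x - y 1) * (u + v * y 0) / (y 0 - y 1) := by field_simp
  have e1 : (x - y 0) / ((y 1 - y 0) * rM 1) * (rM 1 * (u + v * y 1)) =
      -((x - y 0) * (u + v * y 1)) / (y 0 - y 1) := by
    rw [← neg_sub (y 0) (y 1)]
    field_simp
  rw [e0, e1, ← add_div, div_eq_iff h01]
  ring

/-- the determinant of four vectors -/
def D4 {R : Type*} [CommRing R] (a b c w : Fin 4 → R) : R := (Matrix.of ![a, b, c, w]).det

theorem D4_lin (a b c w : Fin 4 → K) : D4 a b c w = ∑ j, w j * D4 a b c (Pi.single j 1) := by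
  have hh : ∀ w : Fin 4 → K, D4 a b c w = w 0 * D4 a b c (Pi.single 0 1) +
      w 1 * D4 a b c (Pi.single 1 1) + w 2 * D4 a b c (Pi.single 2 1) +
      w 3 * D4 a b c (Pi.single 3 1) := by
    intro w
    unfold D4
    simp only [Matrix.det_succ_row_zero, Fin.sum_univ_succ, Matrix.det_fin_three,
      Matrix.submatrix_apply]
    simp [Fin.succAbove, Matrix.of_apply]
    ring
  exact sum_single w (fun j => D4 a b c (Pi.single j 1)) (D4 a b c) hh

theorem D4_map {k : Type*} [Field k] [Algebra k K] (a b c w : Fin 4 → k) :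
    D4 (fun j => algebraMap k K (a j)) (fun j => algebraMap k K (b j))
      (fun j => algebraMap k K (c j)) (fun j => algebraMap k K (w j)) =
      algebraMap k K (D4 a b c w) := by
  unfold D4
  rw [RingHom.map_det]
  congr 1
  ext m n
  fin_cases m <;> rfl

/-- the discriminant identity -/
theorem disc_identity {y rM dM : Fin 2 → K} {x r d s a1 b1 a2 b2 : K} (hy : y 0 ≠ y 1)
    (hr : ∀ j, rM j ≠ 0) (hr0 : r ≠ 0) (hd0 : d ≠ 0) (hD : a1 * b2 - a2 * b1 ≠ 0)
    (hn : dM 0 * dM 1 = d * s ^ 2) (w1 w2 w3 w : Fin 4 → K)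
    (h00 : r * phi y rM dM x w1 w1 = a1 ^ 2 - d * b1 ^ 2)
    (h01 : r * phi y rM dM x w1 w2 = a1 * a2 - d * (b1 * b2))
    (h11 : r * phi y rM dM x w2 w2 = a2 ^ 2 - d * b2 ^ 2)
    (TA TB : (Fin 4 → K) → K)
    (hTA : ∀ v, TA v = r * (phi y rM dM x v w1 * b2 - phi y rM dM x v w2 * b1) /
      (a1 * b2 - a2 * b1))
    (hTB : ∀ v, TB v = r * (phi y rM dM x v w1 * a2 - phi y rM dM x v w2 * a1) /
      (d * (a1 * b2 - a2 * b1)))
    (psi : (Fin 4 → K) → (Fin 4 → K) → K)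
    (hpsi : ∀ v v', psi v v' = r * phi y rM dM x v v' - (TA v * TA v' - d * (TB v * TB v'))) :
    psi w3 w ^ 2 - psi w3 w3 * psi w w =
      (-(r ^ 2 * ((x - y 0) * (x - y 1)) * s / ((a1 * b2 - a2 * b1) * (rM 0 * rM 1))) *
        D4 w1 w2 w3 w) ^ 2 := by
  have h01' : y 0 - y 1 ≠ 0 := sub_ne_zero.2 hy
  have r0 := hr 0
  have r1 := hr 1
  let W : Fin 4 → Fin 4 → K := ![w1, w2, w3, w]
  let g : Fin 4 → Fin 4 → K := fun m n => phi y rM dM x (W m) (W n)
  have key := schur g (fun m n => phi_comm _ _ _ _ _ _) r d a1 b1 a2 b2 hr0 hd0 hD h00 h01 h11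
    (fun m => TA (W m)) (fun m => TB (W m)) (fun m => hTA (W m)) (fun m => hTB (W m))
    (fun m n => psi (W m) (W n)) (fun m n => hpsi (W m) (W n))
  have key2 : d * (a1 * b2 - a2 * b1) ^ 2 * (psi w3 w ^ 2 - psi w3 w3 * psi w w) =
      r ^ 4 * (Matrix.of g).det := key
  let f : Fin 4 → K := ![c0 y rM x, -(c0 y rM x * dM 0), c1 y rM x, -(c1 y rM x * dM 1)]
  let V : Matrix (Fin 4) (Fin 4) K :=
    !![1, 0, 1, 0; y 0, 0, y 1, 0; 0, 1, 0, 1; 0, y 0, 0, y 1]
  have hV : V.det = -(y 0 - y 1) ^ 2 := by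
    simp only [V]
    rw [Matrix.det_succ_row_zero]
    simp only [Fin.sum_univ_succ, Matrix.det_fin_three, Matrix.submatrix_apply]
    simp [Fin.succAbove]
    ring
  have hg : (Matrix.of g).det = (∏ l, f l) * (Matrix.of W * V).det ^ 2 := by
    apply gram_det
    intro m n
    simp only [g, phi, f, V]
    simp only [Fin.sum_univ_four, Matrix.mul_apply, Matrix.of_apply, Matrix.cons_val',
      Matrix.cons_val, Matrix.cons_val_fin_one]
    ring
  rw [Matrix.det_mul, hV] at hg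
  have hW : (Matrix.of W).det = D4 w1 w2 w3 w := rfl
  have hf : ∏ l, f l = c0 y rM x ^ 2 * c1 y rM x ^ 2 * (d * s ^ 2) := by
    rw [Fin.prod_univ_four, ← hn]
    simp only [f, Matrix.cons_val]
    ring
  rw [hW, hf] at hg
  have hcc : c0 y rM x * c1 y rM x * (y 0 - y 1) ^ 2 =
      -((x - y 0) * (x - y 1) / (rM 0 * rM 1)) := by
    unfold c0 c1
    rw [← neg_sub (y 0) (y 1)]
    field_simp
  have hdD : d * (a1 * b2 - a2 * b1) ^ 2 ≠ 0 := mul_ne_zero hd0 (pow_ne_zero 2 hD)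
  apply mul_left_cancel₀ hdD
  rw [key2, hg]
  have e1 : r ^ 4 * (c0 y rM x ^ 2 * c1 y rM x ^ 2 * (d * s ^ 2) *
      (D4 w1 w2 w3 w * -(y 0 - y 1) ^ 2) ^ 2) =
      d * (r ^ 2 * (c0 y rM x * c1 y rM x * (y 0 - y 1) ^ 2) * s * D4 w1 w2 w3 w) ^ 2 := by ring
  rw [e1, hcc]
  field_simp

end

end Pool.Agent.H12.TC
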