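import Pool.Agent.H12.TC.Core2
import Pool.Agent.H12.TC.Clo

/-! Generic zeros of the torsor equations (problem MP_8b378c_ag). -/

open Polynomial Set

namespace Pool.Agent.H12.TC

section

variable {k F Om : Type*} [Field k] [Field F] [Field Om] [Algebra k F] [Algebra F Om]
  [Algebra k Om] [IsScalarTower k F Om] {p q ρ d s : k[X]} {e : Fin 3 → Om} {y : Fin 2 → Om}

/-- a generic zero in `F`, with coordinates `xi` of the part at `q` -/
structure GZ (p q ρ d s : k[X]) (e : Fin 3 → Om) (y : Fin 2 → Om) (u v : F) (A B : F[X])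
    (xi : Fin 4 → F) : Prop where
  base : Base p q ρ d s e y
  dA : A.degree < 5
  dB : B.degree < 5
  Ay : ∀ j, Polynomial.aeval (y j) A = algebraMap F Om (xi 0) + algebraMap F Om (xi 1) * y j
  By : ∀ j, Polynomial.aeval (y j) B = algebraMap F Om (xi 2) + algebraMap F Om (xi 3) * y j
  zy : ∀ j, Polynomial.aeval (y j) ρ * (algebraMap F Om u - algebraMap F Om v * y j) =
    Polynomial.aeval (y j) A ^ 2 - Polynomial.aeval (y j) d * Polynomial.aeval (y j) B ^ 2
  ze : ∀ i, Polynomial.aeval (e i) ρ * (algebraMap F Om u - algebraMap F Om v * e i) =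
    Polynomial.aeval (e i) A ^ 2 - Polynomial.aeval (e i) d * Polynomial.aeval (e i) B ^ 2
  gen : IntermediateField.adjoin k ({u, v} ∪ range A.coeff ∪ range B.coeff) = ⊤
  tr : Algebra.trdeg k F = 7

theorem root_alg {ι : Type*} [Fintype ι] {m : k[X]} {n : ι → Om} (h : Rts m n) (i : ι) :
    IsAlgebraic k (n i) := ⟨m, h.monic.ne_zero, h.root i⟩

theorem aeval_mem (K : IntermediateField k Om) {x : Om} (hx : x ∈ K) (f : k[X]) :
    Polynomial.aeval x f ∈ K := by
  rw [Polynomial.aeval_eq_sum_range]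
  refine sum_mem fun i _ => ?_
  rw [Algebra.smul_def]
  exact mul_mem (K.algebraMap_mem _) (pow_mem hx i)

/-- the nodes of `p * q` -/
theorem nodes_inj (h : Base p q ρ d s e y) : Function.Injective (Sum.elim e y) := by
  rintro (i | i) (j | j) hij
  · rw [h.hp.inj hij]
  · exact absurd hij (h.hey i j)
  · exact absurd hij.symm (h.hey j i)
  · rw [h.hq.inj hij]

theorem Phi_mem_clo (h : Base p q ρ d s e y) (S : Set Om) (i : Fin 3) {w w' : Fin 4 → Om}
    (hw : ∀ j, w j ∈ clo k S) (hw' : ∀ j, w' j ∈ clo k S) :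
    Phi ρ d y (e i) w w' ∈ clo k S := by
  have he := alg_mem_clo (S := S) (root_alg h.hp i)
  have hy : ∀ j, y j ∈ clo k S := fun j => alg_mem_clo (root_alg h.hq j)
  have hr : ∀ j, Polynomial.aeval (y j) ρ ∈ clo k S := fun j => aeval_mem _ (hy j) ρ
  have hd : ∀ j, Polynomial.aeval (y j) d ∈ clo k S := fun j => aeval_mem _ (hy j) d
  unfold Phi phi c0 c1
  refine add_mem (mul_mem (div_mem (sub_mem he (hy 1)) (mul_mem (sub_mem (hy 0) (hy 1)) (hr 0)))
    (sub_mem (mul_mem (add_mem (hw 0) (mul_mem (hw 1) (hy 0)))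
      (add_mem (hw' 0) (mul_mem (hw' 1) (hy 0)))) (mul_mem (hd 0)
      (mul_mem (add_mem (hw 2) (mul_mem (hw 3) (hy 0)))
        (add_mem (hw' 2) (mul_mem (hw' 3) (hy 0)))))))
    (mul_mem (div_mem (sub_mem he (hy 0)) (mul_mem (sub_mem (hy 1) (hy 0)) (hr 1)))
    (sub_mem (mul_mem (add_mem (hw 0) (mul_mem (hw 1) (hy 1)))
      (add_mem (hw' 0) (mul_mem (hw' 1) (hy 1)))) (mul_mem (hd 1)
      (mul_mem (add_mem (hw 2) (mul_mem (hw 3) (hy 1)))
        (add_mem (hw' 2) (mul_mem (hw' 3) (hy 1)))))))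

namespace GZ

variable {u v : F} {A B : F[X]} {xi : Fin 4 → F}

theorem value (h : GZ p q ρ d s e y u v A B xi) (i : Fin 3) :
    Phi ρ d y (e i) (up xi) (up xi) = algebraMap F Om u - algebraMap F Om v * e i := by
  unfold Phi
  rw [phi_value (u := algebraMap F Om u) (v := -algebraMap F Om v) h.base.ne h.base.hρy]
  · ring
  · intro j
    have h1 := h.zy j
    rw [h.Ay j, h.By j] at h1
    show Polynomial.aeval (y j) ρ * _ = _
    simp only [up]
    linear_combination h1

theorem zero (h : GZ p q ρ d s e y u v A B xi) (i : Fin 3) :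
    Polynomial.aeval (e i) ρ * Phi ρ d y (e i) (up xi) (up xi) = Polynomial.aeval (e i) A ^ 2 -
      Polynomial.aeval (e i) d * Polynomial.aeval (e i) B ^ 2 := by
  rw [h.value, h.ze]

/-- no six elements generate everything, algebraically -/
theorem td (h : GZ p q ρ d s e y u v A B xi) (S : Finset Om) (hS : S.card ≤ 6)
    (hxi : ∀ j, algebraMap F Om (xi j) ∈ clo k (S : Set Om))
    (hb : ∀ i, Polynomial.aeval (e i) B ∈ clo k (S : Set Om)) : False := by
  set K := clo k (S : Set Om) with hK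
  have he : ∀ i, e i ∈ K := fun i => alg_mem_clo (root_alg h.base.hp i)
  have hy : ∀ j, y j ∈ K := fun j => alg_mem_clo (root_alg h.base.hq j)
  have hPhi : ∀ i, Phi ρ d y (e i) (up xi) (up xi) ∈ K := fun i =>
    Phi_mem_clo h.base _ i hxi hxi
  have ha : ∀ i, Polynomial.aeval (e i) A ∈ K := by
    intro i
    apply clo_sq
    have h1 := h.zero i
    have h2 : Polynomial.aeval (e i) A ^ 2 = Polynomial.aeval (e i) ρ *
        Phi ρ d y (e i) (up xi) (up xi) +
        Polynomial.aeval (e i) d * Polynomial.aeval (e i) B ^ 2 := by linear_combination -h1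
    rw [h2]
    exact add_mem (mul_mem (aeval_mem K (he i) ρ) (hPhi i))
      (mul_mem (aeval_mem K (he i) d) (pow_mem (hb i) 2))
  have hv : algebraMap F Om v ∈ K := by
    have h10 : e 1 - e 0 ≠ 0 := by
      intro h0
      exact absurd (h.base.hp.inj (sub_eq_zero.1 h0)) (by decide)
    have h1 : algebraMap F Om v = (Phi ρ d y (e 0) (up xi) (up xi) -
        Phi ρ d y (e 1) (up xi) (up xi)) / (e 1 - e 0) := by
      rw [h.value, h.value, eq_div_iff h10]; ring
    rw [h1]
    exact div_mem (sub_mem (hPhi 0) (hPhi 1)) (sub_mem (he 1) (he 0))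
  have hu : algebraMap F Om u ∈ K := by
    have h1 : algebraMap F Om u = Phi ρ d y (e 0) (up xi) (up xi) +
        algebraMap F Om v * e 0 := by rw [h.value]; ring
    rw [h1]
    exact add_mem (hPhi 0) (mul_mem hv (he 0))
  have hcoef : ∀ f : F[X], f.degree < 5 → (∀ i, Polynomial.aeval (e i) f ∈ K) →
      (∀ j, Polynomial.aeval (y j) f ∈ K) → ∀ n, algebraMap F Om (f.coeff n) ∈ K := by
    intro f hf h1 h2 n
    have h3 := coeff_mem_of_values K (e := Sum.elim e y) (nodes_inj h.base)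
      (by rintro (i | j); exacts [he i, hy j]) (f := f.map (algebraMap F Om))
      (by rw [degree_map]; exact hf)
      (by rintro (i | j)
          · rw [eval_map_algebraMap]; exact h1 i
          · rw [eval_map_algebraMap]; exact h2 j) n
    rwa [coeff_map] at h3
  have hAy : ∀ j, Polynomial.aeval (y j) A ∈ K := by
    intro j
    rw [h.Ay]; exact add_mem (hxi 0) (mul_mem (hxi 1) (hy j))
  have hBy : ∀ j, Polynomial.aeval (y j) B ∈ K := by
    intro j
    rw [h.By]; exact add_mem (hxi 2) (mul_mem (hxi 3) (hy j))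
  have hAc := hcoef A h.dA ha hAy
  have hBc := hcoef B h.dB hb hBy
  refine not_all_clo (F := F) (k := k) h.tr S hS fun x => ?_
  let L : IntermediateField k F := IntermediateField.comap (IsScalarTower.toAlgHom k F Om) K
  have hL : IntermediateField.adjoin k ({u, v} ∪ range A.coeff ∪ range B.coeff) ≤ L := by
    rw [IntermediateField.adjoin_le_iff]
    rintro z ((hz | ⟨n, rfl⟩) | ⟨n, rfl⟩)
    · rcases hz with rfl | hz
      · exact hu
      · rw [Set.mem_singleton_iff.1 hz]; exact hv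
    · exact hAc n
    · exact hBc n
  rw [h.gen] at hL
  exact hL (IntermediateField.mem_top (x := x))

/-- the value of the quadratic form is not zero -/
theorem nz1 (h : GZ p q ρ d s e y u v A B xi) (i : Fin 3) :
    Phi ρ d y (e i) (up xi) (up xi) ≠ 0 := by
  classical
  intro h0
  set X0 : Om := algebraMap F Om (xi 0) with hX0
  set X1 : Om := algebraMap F Om (xi 1) with hX1
  set X2 : Om := algebraMap F Om (xi 2) with hX2
  set X3 : Om := algebraMap F Om (xi 3) with hX3
  let S : Finset Om := {X0 + X1 * y 1, X2 + X3 * y 0, X2 + X3 * y 1,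
    Polynomial.aeval (e 0) B, Polynomial.aeval (e 1) B, Polynomial.aeval (e 2) B}
  have hmem : ∀ x ∈ S, x ∈ clo k (S : Set Om) := fun x hx => subset_clo hx
  have g1 : X0 + X1 * y 1 ∈ clo k (S : Set Om) := hmem _ (by simp [S])
  have n0 : X2 + X3 * y 0 ∈ clo k (S : Set Om) := hmem _ (by simp [S])
  have n1 : X2 + X3 * y 1 ∈ clo k (S : Set Om) := hmem _ (by simp [S])
  have hb : ∀ i, Polynomial.aeval (e i) B ∈ clo k (S : Set Om) := by
    intro i
    refine hmem _ ?_
    fin_cases i <;> simp [S]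
  have he := alg_mem_clo (S := (S : Set Om)) (root_alg h.base.hp i)
  have hy : ∀ j, y j ∈ clo k (S : Set Om) := fun j => alg_mem_clo (root_alg h.base.hq j)
  have hr : ∀ j, Polynomial.aeval (y j) ρ ∈ clo k (S : Set Om) := fun j => aeval_mem _ (hy j) ρ
  have hd : ∀ j, Polynomial.aeval (y j) d ∈ clo k (S : Set Om) := fun j => aeval_mem _ (hy j) d
  have h01 : y 0 - y 1 ≠ 0 := sub_ne_zero.2 h.base.ne
  have h10 : y 1 - y 0 ≠ 0 := sub_ne_zero.2 h.base.ne.symm
  have hcc0 : c0 y (fun j => Polynomial.aeval (y j) ρ) (e i) ≠ 0 :=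
    div_ne_zero (sub_ne_zero.2 (h.base.hey i 1)) (mul_ne_zero h01 (h.base.hρy 0))
  have mc0 : c0 y (fun j => Polynomial.aeval (y j) ρ) (e i) ∈ clo k (S : Set Om) :=
    div_mem (sub_mem he (hy 1)) (mul_mem (sub_mem (hy 0) (hy 1)) (hr 0))
  have mc1 : c1 y (fun j => Polynomial.aeval (y j) ρ) (e i) ∈ clo k (S : Set Om) :=
    div_mem (sub_mem he (hy 0)) (mul_mem (sub_mem (hy 1) (hy 0)) (hr 1))
  have g0 : X0 + X1 * y 0 ∈ clo k (S : Set Om) := by
    apply clo_sq
    have h1 : (X0 + X1 * y 0) ^ 2 = Polynomial.aeval (y 0) d * (X2 + X3 * y 0) ^ 2 -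
        c1 y (fun j => Polynomial.aeval (y j) ρ) (e i) * ((X0 + X1 * y 1) ^ 2 -
          Polynomial.aeval (y 1) d * (X2 + X3 * y 1) ^ 2) /
        c0 y (fun j => Polynomial.aeval (y j) ρ) (e i) := by
      field_simp
      simp only [Phi, phi, up] at h0
      linear_combination h0
    rw [h1]
    exact sub_mem (mul_mem (hd 0) (pow_mem n0 2)) (div_mem (mul_mem mc1 (sub_mem (pow_mem g1 2)
      (mul_mem (hd 1) (pow_mem n1 2)))) mc0)
  have m1 : X1 ∈ clo k (S : Set Om) := by
    have e1 : X1 = ((X0 + X1 * y 0) - (X0 + X1 * y 1)) / (y 0 - y 1) := by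
      rw [eq_div_iff h01]; ring
    rw [e1]; exact div_mem (sub_mem g0 g1) (sub_mem (hy 0) (hy 1))
  have m0 : X0 ∈ clo k (S : Set Om) := by
    have e1 : X0 = (X0 + X1 * y 0) - X1 * y 0 := by ring
    rw [e1]; exact sub_mem g0 (mul_mem m1 (hy 0))
  have m3 : X3 ∈ clo k (S : Set Om) := by
    have e1 : X3 = ((X2 + X3 * y 0) - (X2 + X3 * y 1)) / (y 0 - y 1) := by
      rw [eq_div_iff h01]; ring
    rw [e1]; exact div_mem (sub_mem n0 n1) (sub_mem (hy 0) (hy 1))
  have m2 : X2 ∈ clo k (S : Set Om) := by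
    have e1 : X2 = (X2 + X3 * y 0) - X3 * y 0 := by ring
    rw [e1]; exact sub_mem n0 (mul_mem m3 (hy 0))
  refine h.td S Finset.card_le_six (fun j => ?_) hb
  fin_cases j
  · exact m0
  · exact m1
  · exact m2
  · exact m3

end GZ

end

end Pool.Agent.H12.TC
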