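import Mathlib

/-! Polynomials and their values at the roots of a separable polynomial (problem MP_8b378c_ag). -/

open Polynomial Set

namespace Pool.Agent.H12.TC

section

variable (E : Type*) {Om ι : Type*} [Field E] [Field Om] [Algebra E Om]

/-- the values at the nodes `e` of the polynomials with coefficients in `E` -/
noncomputable def NN (e : ι → Om) : Subalgebra E (ι → Om) := (Polynomial.aeval e : E[X] →ₐ[E] (ι → Om)).range

variable {E}

theorem aeval_nodes (e : ι → Om) (h : E[X]) (i : ι) :
    (Polynomial.aeval e h : ι → Om) i = Polynomial.aeval (e i) h := by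
  have := Polynomial.aeval_algHom_apply (Pi.evalAlgHom E (fun _ : ι => Om) i) e h
  exact this.symm

theorem mem_NN {e : ι → Om} {g : ι → Om} :
    g ∈ NN E e ↔ ∃ h : E[X], ∀ i, Polynomial.aeval (e i) h = g i := by
  constructor
  · rintro ⟨h, rfl⟩
    exact ⟨h, fun i => (aeval_nodes e h i).symm⟩
  · rintro ⟨h, hh⟩
    exact ⟨h, funext fun i => (aeval_nodes e h i).trans (hh i)⟩

theorem poly_mem_NN (e : ι → Om) (h : E[X]) : (fun i => Polynomial.aeval (e i) h) ∈ NN E e :=
  mem_NN.2 ⟨h, fun _ => rfl⟩

theorem const_mem_NN (e : ι → Om) (c : E) : (fun _ => algebraMap E Om c) ∈ NN E e :=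
  mem_NN.2 ⟨C c, fun i => by simp⟩

theorem mul_mem_NN {e : ι → Om} {f g : ι → Om} (hf : f ∈ NN E e) (hg : g ∈ NN E e) :
    (fun i => f i * g i) ∈ NN E e := (NN E e).mul_mem hf hg

theorem add_mem_NN {e : ι → Om} {f g : ι → Om} (hf : f ∈ NN E e) (hg : g ∈ NN E e) :
    (fun i => f i + g i) ∈ NN E e := (NN E e).add_mem hf hg

theorem sub_mem_NN {e : ι → Om} {f g : ι → Om} (hf : f ∈ NN E e) (hg : g ∈ NN E e) :
    (fun i => f i - g i) ∈ NN E e := (NN E e).sub_mem hf hg

end

/-- `e` is the family of the roots, all simple, of the monic polynomial `m` -/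
structure Rts {k Om ι : Type*} [Field k] [Field Om] [Algebra k Om] [Fintype ι] (m : k[X])
    (e : ι → Om) : Prop where
  inj : Function.Injective e
  eq : m.map (algebraMap k Om) = ∏ i, (X - C (e i))

section

variable {k E Om ι : Type*} [Field k] [Field E] [Field Om] [Algebra k E] [Algebra E Om]
  [Algebra k Om] [IsScalarTower k E Om] [Fintype ι] {m : k[X]} {e : ι → Om}

theorem Rts.root (h : Rts m e) (i : ι) : Polynomial.aeval (e i) m = 0 := by
  have h1 : (m.map (algebraMap k Om)).eval (e i) = 0 := by
    rw [h.eq, eval_prod]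
    exact Finset.prod_eq_zero (Finset.mem_univ i) (by simp)
  rwa [eval_map_algebraMap] at h1

theorem Rts.monic (h : Rts m e) : m.Monic := by
  have h1 : (m.map (algebraMap k Om)).Monic := by
    rw [h.eq]
    exact monic_prod_X_sub_C _ _
  exact Polynomial.monic_of_injective (algebraMap k Om).injective h1

theorem Rts.natDegree (h : Rts m e) : m.natDegree = Fintype.card ι := by
  have h1 : (m.map (algebraMap k Om)).natDegree = Fintype.card ι := by
    rw [h.eq, natDegree_prod_of_monic _ _ (fun i _ => monic_X_sub_C (e i))]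
    simp
  rwa [natDegree_map] at h1

theorem map_tower (m : k[X]) : (m.map (algebraMap k E)).map (algebraMap E Om) =
    m.map (algebraMap k Om) := by
  rw [Polynomial.map_map, ← IsScalarTower.algebraMap_eq]

theorem aeval_tower (m : k[X]) (x : Om) : Polynomial.aeval x (m.map (algebraMap k E)) =
    Polynomial.aeval x m := by
  rw [Polynomial.aeval_map_algebraMap]

theorem Rts.coprime (h : Rts m e) (f : E[X]) (hf : ∀ i, Polynomial.aeval (e i) f ≠ 0) :
    IsCoprime (m.map (algebraMap k E)) f := by
  rw [← Polynomial.isCoprime_map (algebraMap E Om), map_tower, h.eq]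
  refine IsCoprime.prod_left fun i _ => ?_
  rw [(Polynomial.irreducible_X_sub_C (e i)).coprime_iff_not_dvd, Polynomial.dvd_iff_isRoot]
  intro hr
  apply hf i
  rw [← eval_map_algebraMap]
  exact hr

theorem Rts.inv (h : Rts m e) {g : ι → Om} (hg : g ∈ NN E e) (h0 : ∀ i, g i ≠ 0) :
    (fun i => (g i)⁻¹) ∈ NN E e := by
  obtain ⟨f, hf⟩ := mem_NN.1 hg
  obtain ⟨a, b, hab⟩ := h.coprime (E := E) f (fun i => by rw [hf i]; exact h0 i)
  refine mem_NN.2 ⟨b, fun i => ?_⟩
  have h1 := congrArg (Polynomial.aeval (e i)) hab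
  rw [map_add, map_mul, map_mul, aeval_tower, h.root, mul_zero, zero_add, hf i, map_one] at h1
  exact eq_inv_of_mul_eq_one_left h1

theorem Rts.red (h : Rts m e) {g : ι → Om} (hg : g ∈ NN E e) :
    ∃ f : E[X], f.degree < Fintype.card ι ∧ ∀ i, Polynomial.aeval (e i) f = g i := by
  obtain ⟨f, hf⟩ := mem_NN.1 hg
  have hm : (m.map (algebraMap k E)).Monic := h.monic.map _
  refine ⟨f %ₘ (m.map (algebraMap k E)), ?_, fun i => ?_⟩
  · refine (degree_modByMonic_lt _ hm).trans_le ?_
    rw [degree_eq_natDegree hm.ne_zero, natDegree_map, h.natDegree]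
  · rw [← hf i]
    have h1 := congrArg (Polynomial.aeval (e i)) (modByMonic_add_div f (m.map (algebraMap k E)))
    rw [map_add, map_mul, aeval_tower, h.root, zero_mul, add_zero] at h1
    exact h1

end

/-- a polynomial of small degree over a big field with values at the nodes in a subfield -/
theorem poly_unique {E Om ι : Type*} [Field E] [Field Om] [Algebra E Om] [Fintype ι]
    {e : ι → Om} (he : Function.Injective e) {f g : E[X]} (hf : f.degree < Fintype.card ι)
    (hg : g.degree < Fintype.card ι)
    (h : ∀ i, Polynomial.aeval (e i) f = Polynomial.aeval (e i) g) : f = g := by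
  apply Polynomial.map_injective _ (algebraMap E Om).injective
  refine Polynomial.eq_of_degrees_lt_of_eval_index_eq (s := Finset.univ) (v := e)
    he.injOn ?_ ?_ ?_
  · rw [degree_map]; exact hf
  · rw [degree_map]; exact hg
  · intro i _
    rw [eval_map_algebraMap, eval_map_algebraMap]
    exact h i

/-- interpolation in a subfield -/
theorem coeff_mem_of_values {k Om ι : Type*} [Field k] [Field Om] [Algebra k Om] [Fintype ι]
    (K : IntermediateField k Om) {e : ι → Om} (he : Function.Injective e) (heK : ∀ i, e i ∈ K)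
    {f : Om[X]} (hf : f.degree < Fintype.card ι) (hv : ∀ i, f.eval (e i) ∈ K) (n : ℕ) :
    f.coeff n ∈ K := by
  classical
  let e' : ι → K := fun i => ⟨e i, heK i⟩
  let v' : ι → K := fun i => ⟨f.eval (e i), hv i⟩
  have he' : Function.Injective e' := fun i j hij => he (congrArg Subtype.val hij)
  let g : K[X] := Lagrange.interpolate Finset.univ e' v'
  have hg : g.degree < Fintype.card ι := Lagrange.degree_interpolate_lt _ he'.injOn
  have hfg : f = g.map (algebraMap K Om) := by
    refine Polynomial.eq_of_degrees_lt_of_eval_index_eq (s := Finset.univ) (v := e)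
      he.injOn hf ?_ ?_
    · rw [degree_map]; exact hg
    · intro i _
      have h1 : g.eval (e' i) = v' i :=
        Lagrange.eval_interpolate_at_node _ he'.injOn (Finset.mem_univ i)
      have h2 : (g.map (algebraMap K Om)).eval (algebraMap K Om (e' i)) =
          algebraMap K Om (g.eval (e' i)) := eval_map_apply _ _
      have h3 : algebraMap K Om (e' i) = e i := rfl
      rw [h3, h1] at h2
      exact h2.symm
  rw [hfg, coeff_map]
  exact (g.coeff n).2

end Pool.Agent.H12.TC
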