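import Pool.Agent.H12.TC.Final
import Pool.Agent.H12.TC.Defs

/-! From the hypotheses on polynomials to the roots (problem MP_8b378c_ag). -/

open Polynomial Set

namespace Pool.Agent.H12.TC

theorem exists_rts {k Om : Type*} [Field k] [Field Om] [IsAlgClosed Om] [Algebra k Om] {m : k[X]}
    (hm : m.Monic) (hs : m.Separable) {n : ℕ} (hn : m.natDegree = n) :
    ∃ e : Fin n → Om, Rts m e := by
  classical
  have hspl : (m.map (algebraMap k Om)).Splits := IsAlgClosed.splits _
  have hnd : (m.map (algebraMap k Om)).roots.Nodup := Polynomial.nodup_roots (hs.map)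
  have hmon : (m.map (algebraMap k Om)).Monic := hm.map _
  have hcard : (m.map (algebraMap k Om)).roots.card = n := by
    rw [← hspl.natDegree_eq_card_roots, natDegree_map, hn]
  let s : Finset Om := (m.map (algebraMap k Om)).roots.toFinset
  have hsc : s.card = n := by
    rw [← hcard]
    exact Multiset.toFinset_card_of_nodup hnd
  let E := s.equivFinOfCardEq hsc
  refine ⟨fun i => (E.symm i : Om), ⟨?_, ?_⟩⟩
  · intro i j hij
    exact E.symm.injective (Subtype.ext hij)
  · have h1 : (m.map (algebraMap k Om)) =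
        ((m.map (algebraMap k Om)).roots.map fun a => X - C a).prod :=
      hspl.eq_prod_roots_of_monic hmon
    have h2 : ((m.map (algebraMap k Om)).roots.map fun a => X - C a).prod =
        ∏ a ∈ s, (X - C a) := by
      have h3 : s.val = (m.map (algebraMap k Om)).roots := by
        rw [Multiset.toFinset_val, hnd.dedup]
      rw [← h3]
      rfl
    rw [h1, h2, ← Finset.prod_coe_sort s]
    exact (Equiv.prod_comp E.symm (fun a : s => (X - C (a : Om)))).symm

section

variable {k F Om : Type*} [Field k] [Field F] [Field Om] [Algebra k F] [Algebra F Om]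
  [Algebra k Om] [IsScalarTower k F Om] {p q ρ d s : k[X]} {e : Fin 3 → Om} {y : Fin 2 → Om}

theorem ne_zero_of_coprime {m f : k[X]} (h : IsCoprime m f) {x : Om}
    (hx : Polynomial.aeval x m = 0) : Polynomial.aeval x f ≠ 0 := by
  obtain ⟨a, b, hab⟩ := h
  intro h0
  have h1 := congrArg (Polynomial.aeval x) hab
  rw [map_add, map_mul, map_mul, hx, h0, mul_zero, mul_zero, map_one, add_zero] at h1
  exact zero_ne_one h1

theorem TorsorZero.val {m : k[X]} {u v : F} {A B : F[X]} (h : TorsorZero m ρ d u v A B) {x : Om}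
    (hx : Polynomial.aeval x m = 0) :
    Polynomial.aeval x ρ * (algebraMap F Om u - algebraMap F Om v * x) =
      Polynomial.aeval x A ^ 2 - Polynomial.aeval x d * Polynomial.aeval x B ^ 2 := by
  obtain ⟨g, hg⟩ := h.eqn
  have h1 := congrArg (Polynomial.aeval x) hg
  simp only [map_sub, map_mul, map_pow, aeval_tower, aeval_C, aeval_X, hx, zero_mul] at h1
  linear_combination h1

theorem lin_rep (hq : Rts q y) (A : F[X]) : ∃ c c' : F, ∀ j,
    Polynomial.aeval (y j) A = algebraMap F Om c + algebraMap F Om c' * y j := by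
  obtain ⟨R, hR, hRv⟩ := hq.red (k := k) (poly_mem_NN y A)
  have hdeg : R.degree ≤ 1 := by
    have h3 : R.degree < ((2 : ℕ) : WithBot ℕ) := by simpa using hR
    exact Order.lt_succ_iff.1 (by
      have : Order.succ (1 : WithBot ℕ) = ((2 : ℕ) : WithBot ℕ) := rfl
      rw [this]; exact h3)
  have hRe := Polynomial.eq_X_add_C_of_degree_le_one hdeg
  refine ⟨R.coeff 0, R.coeff 1, fun j => ?_⟩
  rw [← hRv j]
  conv_lhs => rw [hRe]
  simp [add_comm]

theorem base_of (h2 : (2 : k) ≠ 0) (hp : Rts p e) (hq : Rts q y) (hpq : IsCoprime p q)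
    (hρ : IsCoprime (p * q) ρ) (hd : IsCoprime (p * q) d)
    (hN : p ∣ C (q.resultant d) - d * s ^ 2) : Base p q ρ d s e y where
  h2 := by
    intro h0
    apply h2
    apply (algebraMap k Om).injective
    rw [map_ofNat, map_zero, h0]
  hp := hp
  hq := hq
  hey := fun i j hij => ne_zero_of_coprime hpq (hp.root i) (by rw [hij]; exact hq.root j)
  hρe := fun i => ne_zero_of_coprime hρ (by rw [map_mul, hp.root, zero_mul])
  hρy := fun j => ne_zero_of_coprime hρ (by rw [map_mul, hq.root, mul_zero])
  hde := fun i => ne_zero_of_coprime hd (by rw [map_mul, hp.root, zero_mul])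
  hdy := fun j => ne_zero_of_coprime hd (by rw [map_mul, hq.root, mul_zero])
  hn := by
    intro i
    obtain ⟨g, hg⟩ := hN
    have h1 := congrArg (Polynomial.aeval (e i)) hg
    rw [map_sub, map_mul, map_mul, aeval_C, map_pow, hp.root, zero_mul, resultant_eq hq,
      Fin.prod_univ_two] at h1
    exact sub_eq_zero.1 h1

/-- values of the quadratic form at the rational zeros -/
theorem quad_of_zero (h : Base p q ρ d s e y) {u v : k} {A B : k[X]}
    (hz : TorsorZero (p * q) ρ d u v A B) {w : Fin 4 → k}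
    (hA : ∀ j, Polynomial.aeval (y j) A = algebraMap k Om (w 0) + algebraMap k Om (w 1) * y j)
    (hB : ∀ j, Polynomial.aeval (y j) B = algebraMap k Om (w 2) + algebraMap k Om (w 3) * y j)
    (i : Fin 3) : Polynomial.aeval (e i) ρ * Phi ρ d y (e i) (up w) (up w) =
      Polynomial.aeval (e i) A ^ 2 - Polynomial.aeval (e i) d * Polynomial.aeval (e i) B ^ 2 := by
  have hv : Phi ρ d y (e i) (up w) (up w) = algebraMap k Om u - algebraMap k Om v * e i := by
    unfold Phi
    rw [phi_value (u := algebraMap k Om u) (v := -algebraMap k Om v) h.ne h.hρy]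
    · ring
    · intro j
      have h1 := hz.val (x := y j) (by rw [map_mul, h.hq.root, mul_zero])
      rw [hA j, hB j] at h1
      show Polynomial.aeval (y j) ρ * _ = _
      simp only [up]
      linear_combination h1
  rw [hv]
  exact hz.val (by rw [map_mul, h.hp.root, zero_mul])

theorem Phi_comm (x : Om) (w w' : Fin 4 → Om) : Phi ρ d y x w w' = Phi ρ d y x w' w :=
  phi_comm _ _ _ _ _ _

/-- the linear space gives the hypotheses of `core` -/
theorem core_of_line [Infinite k] (h : Base p q ρ d s e y) {A1 B1 A2 B2 : k[X]}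
    (hL : ∀ x x' : k, ∃ u v : k, TorsorZero (p * q) ρ d u v (x • A1 + x' • A2)
      (x • B1 + x' • B2)) (hD : IsCoprime p (A1 * B2 - A2 * B1)) :
    ∃ TA TB XX YY : Fin 4 → k[X], ∀ i (w : Fin 4 → Om),
      Polynomial.aeval (e i) ρ * Phi ρ d y (e i) w w = ev TA (e i) w ^ 2 -
        Polynomial.aeval (e i) d * ev TB (e i) w ^ 2 + ev XX (e i) w * ev YY (e i) w := by
  obtain ⟨c0, c1, hc⟩ := lin_rep (k := k) h.hq A1
  obtain ⟨c2, c3, hc'⟩ := lin_rep (k := k) h.hq B1
  obtain ⟨g0, g1, hg⟩ := lin_rep (k := k) h.hq A2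
  obtain ⟨g2, g3, hg'⟩ := lin_rep (k := k) h.hq B2
  let w1 : Fin 4 → k := ![c0, c1, c2, c3]
  let w2 : Fin 4 → k := ![g0, g1, g2, g3]
  obtain ⟨u1, v1, z1⟩ := hL 1 0
  obtain ⟨u2, v2, z2⟩ := hL 0 1
  obtain ⟨u3, v3, z3⟩ := hL 1 1
  rw [one_smul, zero_smul, add_zero, one_smul, zero_smul, add_zero] at z1
  rw [one_smul, zero_smul, zero_add, one_smul, zero_smul, zero_add] at z2
  rw [one_smul, one_smul, one_smul, one_smul] at z3
  have q1 := quad_of_zero h z1 (w := w1) hc hc'
  have q2 := quad_of_zero h z2 (w := w2) hg hg'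
  have q3 := quad_of_zero h z3 (w := w1 + w2)
    (fun j => by
      rw [map_add, hc, hg]
      simp only [w1, w2, Pi.add_apply, Matrix.cons_val, map_add]
      ring)
    (fun j => by
      rw [map_add, hc', hg']
      simp only [w1, w2, Pi.add_apply, Matrix.cons_val, map_add]
      ring)
  refine core h A1 B1 A2 B2 w1 w2 q1 (fun i => ?_) q2 (fun i => ?_)
  · have a3 := q3 i
    rw [up_add, map_add, map_add] at a3
    have hl : Phi ρ d y (e i) (up w1 + up w2) (up w1 + up w2) = Phi ρ d y (e i) (up w1) (up w1) +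
        2 * Phi ρ d y (e i) (up w1) (up w2) + Phi ρ d y (e i) (up w2) (up w2) := by
      unfold Phi phi
      simp only [Pi.add_apply]
      ring
    rw [hl] at a3
    have a1 := q1 i
    have a2 := q2 i
    apply mul_left_cancel₀ h.h2
    linear_combination a3 - a1 - a2
  · have h1 := ne_zero_of_coprime hD (h.hp.root i)
    rw [map_sub, map_mul, map_mul] at h1
    exact h1

end

/-- the theorem, over a fixed big field -/
theorem rational_of {k : Type*} [Field k] [Infinite k] (h2 : (2 : k) ≠ 0) {p q ρ d s : k[X]}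
    (hp : p.Monic) (hq : q.Monic) (hp3 : p.natDegree = 3) (hq2 : q.natDegree = 2)
    (hs : (p * q).Separable) (hρ : IsCoprime (p * q) ρ) (hd : IsCoprime (p * q) d)
    (hN : p ∣ C (q.resultant d) - d * s ^ 2) {A1 B1 A2 B2 : k[X]}
    (hL : ∀ x x' : k, ∃ u v : k, TorsorZero (p * q) ρ d u v (x • A1 + x' • A2)
      (x • B1 + x' • B2)) (hD : IsCoprime p (A1 * B2 - A2 * B1))
    {F : Type*} [Field F] [Algebra k F] {u v : F} {A B : F[X]}
    (hz : TorsorZero (p * q) ρ d u v A B)
    (hgen : IntermediateField.adjoin k ({u, v} ∪ range A.coeff ∪ range B.coeff) = ⊤)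
    (htr : Algebra.trdeg k F = 7) :
    ∃ t : Fin 7 → F, AlgebraicIndependent k t ∧ IntermediateField.adjoin k (range t) = ⊤ := by
  let Om := AlgebraicClosure F
  obtain ⟨e, he⟩ := exists_rts (Om := Om) hp (hs.of_mul_left) hp3
  obtain ⟨y, hy⟩ := exists_rts (Om := Om) hq (hs.of_mul_right) hq2
  have hpq : IsCoprime p q := hs.isCoprime
  have hb : Base p q ρ d s e y := base_of h2 he hy hpq hρ hd hN
  obtain ⟨TA, TB, XX, YY, hid⟩ := core_of_line hb hL hD
  obtain ⟨c0, c1, hc⟩ := lin_rep (k := k) (F := F) hy A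
  obtain ⟨c2, c3, hc'⟩ := lin_rep (k := k) (F := F) hy B
  have hdeg : (p * q).degree = 5 := by
    rw [degree_mul, degree_eq_natDegree hp.ne_zero, degree_eq_natDegree hq.ne_zero, hp3, hq2]
    norm_num
  have hgz : GZ p q ρ d s e y u v A B ![c0, c1, c2, c3] :=
    { base := hb
      dA := by have := hz.degA; rwa [hdeg] at this
      dB := by have := hz.degB; rwa [hdeg] at this
      Ay := hc
      By := hc'
      zy := fun j => hz.val (by rw [map_mul, hy.root, mul_zero])
      ze := fun i => hz.val (by rw [map_mul, he.root, zero_mul])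
      gen := hgen
      tr := htr }
  exact GZC.rational (TA := TA) (TB := TB) (XX := XX) (YY := YY) ⟨hgz, hid⟩

end Pool.Agent.H12.TC
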